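import Mathlib

/-!
# Ideals of the ring `R[y] / (y ^ 2 - f)`

`R[y] / (y ^ 2 - f)` is `QuadraticAlgebra R f 0`. We consider the ideals `(A, B - y)`, where `A` divides
`B ^ 2 - f`.
-/

set_option autoImplicit false
set_option linter.all false

open QuadraticAlgebra

namespace Pool.Agent.H458.PD

/-- The ring `R[y] / (y ^ 2 - f)`. -/
abbrev QA (R : Type) [CommRing R] (f : R) : Type := QuadraticAlgebra R f 0

/-- Two ideals are in the same class. -/
def Eqv {R : Type} [CommRing R] (I J : Ideal R) : Prop :=
  ∃ a b : R, a ≠ 0 ∧ b ≠ 0 ∧ Ideal.span {a} * I = Ideal.span {b} * J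

section eqv

variable {R : Type} [CommRing R] [IsDomain R]

theorem Eqv.refl (I : Ideal R) : Eqv I I := ⟨1, 1, one_ne_zero, one_ne_zero, rfl⟩

theorem Eqv.symm {I J : Ideal R} (h : Eqv I J) : Eqv J I := by
  obtain ⟨a, b, ha, hb, h⟩ := h
  exact ⟨b, a, hb, ha, h.symm⟩

theorem Eqv.mul {I J I' J' : Ideal R} (h : Eqv I J) (h' : Eqv I' J') : Eqv (I * I') (J * J') := by
  obtain ⟨a, b, ha, hb, h⟩ := h
  obtain ⟨a', b', ha', hb', h'⟩ := h'
  refine ⟨a * a', b * b', mul_ne_zero ha ha', mul_ne_zero hb hb', ?_⟩
  rw [← Ideal.span_singleton_mul_span_singleton, ← Ideal.span_singleton_mul_span_singleton]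
  calc Ideal.span {a} * Ideal.span {a'} * (I * I') = (Ideal.span {a} * I) * (Ideal.span {a'} * I') := by
        ring
    _ = (Ideal.span {b} * J) * (Ideal.span {b'} * J') := by rw [h, h']
    _ = _ := by ring

theorem Eqv.trans {I J L : Ideal R} (h : Eqv I J) (h' : Eqv J L) : Eqv I L := by
  obtain ⟨a, b, ha, hb, h⟩ := h
  obtain ⟨a', b', ha', hb', h'⟩ := h'
  refine ⟨a' * a, b * b', mul_ne_zero ha' ha, mul_ne_zero hb hb', ?_⟩
  rw [← Ideal.span_singleton_mul_span_singleton, ← Ideal.span_singleton_mul_span_singleton]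
  calc Ideal.span {a'} * Ideal.span {a} * I = Ideal.span {a'} * (Ideal.span {a} * I) := by ring
    _ = Ideal.span {b} * (Ideal.span {a'} * J) := by rw [h]; ring
    _ = _ := by rw [h']; ring

theorem Eqv.pow {I J : Ideal R} (h : Eqv I J) (n : ℕ) : Eqv (I ^ n) (J ^ n) := by
  induction n with
  | zero => rw [pow_zero, pow_zero]; exact Eqv.refl _
  | succ n ih => rw [pow_succ, pow_succ]; exact ih.mul h

end eqv

section idl

variable {R : Type} [CommRing R] {f : R}

/-- `B - y` -/
def by' (f B : R) : QA R f := ⟨B, -1⟩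

/-- The element `A` of `R`. -/
def xx (f A : R) : QA R f := ⟨A, 0⟩

variable (f) in
/-- The ideal `(A, B - y)`. -/
def idl (A B : R) : Ideal (QA R f) := Ideal.span {xx f A, by' f B}

variable (f) in
/-- The ideal `(A, B + y)`. -/
def idl' (A B : R) : Ideal (QA R f) := Ideal.span {xx f A, -by' f (-B)}

theorem xx_mul (a b : R) : xx f (a * b) = xx f a * xx f b := by
  ext <;> simp [xx]

theorem xx_add (a b : R) : xx f (a + b) = xx f a + xx f b := by
  ext <;> simp [xx]

theorem xx_pow (a : R) (n : ℕ) : xx f (a ^ n) = xx f a ^ n := by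
  induction n with
  | zero => ext <;> simp [xx]
  | succ n ih => rw [pow_succ, pow_succ, xx_mul, ih]

theorem xx_eq_zero {a : R} : xx f a = 0 ↔ a = 0 := by
  constructor
  · intro h
    have := congrArg QuadraticAlgebra.re h
    simpa [xx] using this
  · rintro rfl
    ext <;> simp [xx]

theorem mem_idl {A B C : R} (h : B ^ 2 - A * C = f) (w : QA R f) :
    w ∈ idl f A B ↔ A ∣ w.re + w.im * B := by
  constructor
  · intro hw
    unfold idl at hw
    rw [Ideal.mem_span_pair] at hw
    obtain ⟨a, b, rfl⟩ := hw
    simp only [re_add, re_mul, im_add, im_mul, xx, by', mul_zero, add_zero, zero_mul]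
    refine ⟨a.re + a.im * B + b.im * C, ?_⟩
    linear_combination b.im * h
  · rintro ⟨c, hc⟩
    have : w = xx f c * xx f A + xx f (-w.im) * by' f B := by
      ext
      · simp only [re_add, re_mul, xx, by']
        have : w.re = A * c - w.im * B := by rw [← hc]; ring
        rw [this]; ring
      · simp only [im_add, im_mul, xx, by']; ring
    rw [this]
    exact Ideal.add_mem _ (Ideal.mul_mem_left _ _ (Ideal.subset_span (by simp)))
      (Ideal.mul_mem_left _ _ (Ideal.subset_span (by simp)))

theorem mem_idl' {A B C : R} (h : B ^ 2 - A * C = f) (w : QA R f) :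
    w ∈ idl' f A B ↔ A ∣ w.re - w.im * B := by
  constructor
  · intro hw
    unfold idl' at hw
    rw [Ideal.mem_span_pair] at hw
    obtain ⟨a, b, rfl⟩ := hw
    simp only [re_add, re_mul, im_add, im_mul, xx, by', mul_zero, add_zero, zero_mul, re_neg, im_neg]
    refine ⟨a.re - a.im * B - b.im * C, ?_⟩
    linear_combination (-b.im) * h
  · rintro ⟨c, hc⟩
    have : w = xx f c * xx f A + xx f (w.im) * (-by' f (-B)) := by
      ext
      · simp only [re_add, re_mul, xx, by', re_neg, im_neg]
        have : w.re = A * c + w.im * B := by rw [← hc]; ring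
        rw [this]; ring
      · simp only [im_add, im_mul, xx, by', re_neg, im_neg]; ring
    rw [this]
    exact Ideal.add_mem _ (Ideal.mul_mem_left _ _ (Ideal.subset_span (by simp)))
      (Ideal.mul_mem_left _ _ (Ideal.subset_span (by simp)))

theorem by_mul {B : R} : by' f B * (-by' f (-B)) = xx f (B ^ 2 - f) := by
  ext
  · simp only [re_mul, by', xx, re_neg, im_neg]; ring
  · simp only [im_mul, by', xx, re_neg, im_neg]; ring

/-- `(A, B - y) (A, B + y) = (A)` if `(A, C) = (1)`. -/
theorem idl_mul {A B C : R} (h : B ^ 2 - A * C = f) (hc : IsCoprime A C) :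
    idl f A B * idl' f A B = Ideal.span {xx f A} := by
  apply le_antisymm
  · rw [idl, idl', Ideal.span_pair_mul_span_pair, Ideal.span_le]
    have e : by' f B * (-by' f (-B)) = xx f A * xx f C := by
      rw [by_mul, ← xx_mul, ← h]
      congr 1
      ring
    intro w hw
    simp only [Set.mem_insert_iff, Set.mem_singleton_iff] at hw
    rw [SetLike.mem_coe, Ideal.mem_span_singleton]
    rcases hw with rfl | rfl | rfl | rfl
    · exact dvd_mul_right _ _
    · exact dvd_mul_right _ _
    · exact dvd_mul_left _ _
    · rw [e]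
      exact dvd_mul_right _ _
  · rw [Ideal.span_singleton_le_iff_mem]
    obtain ⟨α, γ, hαγ⟩ := hc
    have e : by' f B * (-by' f (-B)) = xx f A * xx f C := by
      rw [by_mul, ← xx_mul, ← h]
      congr 1
      ring
    have h1 : xx f A = xx f α * (xx f A * xx f A) + xx f γ * (by' f B * (-by' f (-B))) := by
      rw [e, ← xx_mul, ← xx_mul, ← xx_mul, ← xx_mul, ← xx_add]
      congr 1
      calc A = A * (α * A + γ * C) := by rw [hαγ, mul_one]
        _ = _ := by ring
    rw [h1]
    refine Ideal.add_mem _ (Ideal.mul_mem_left _ _ (Ideal.mul_mem_mul ?_ ?_))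
      (Ideal.mul_mem_left _ _ (Ideal.mul_mem_mul ?_ ?_))
    · exact Ideal.subset_span (by simp)
    · exact Ideal.subset_span (by simp)
    · exact Ideal.subset_span (by simp)
    · exact Ideal.subset_span (by simp)

/-- The change of the basis of `(A, B - y)`. -/
theorem idl_change {A B C X Y X' Y' : R} (h : B ^ 2 - A * C = f) (hd : X * Y' - X' * Y = 1) :
    Ideal.span {(⟨X * A + Y * B, Y⟩ : QA R f)} * idl f A B =
      Ideal.span {xx f A} * idl f (A * X ^ 2 + 2 * B * X * Y + C * Y ^ 2)
        (A * X * X' + B * (X * Y' + X' * Y) + C * Y * Y') := by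
  have hs : idl f A B = Ideal.span {(⟨X * A + Y * B, -Y⟩ : QA R f), (⟨X' * A + Y' * B, -Y'⟩ : QA R f)} := by
    apply le_antisymm
    · rw [idl, Ideal.span_le]
      intro w hw
      simp only [Set.mem_insert_iff, Set.mem_singleton_iff] at hw
      rw [SetLike.mem_coe, Ideal.mem_span_pair]
      rcases hw with rfl | rfl
      · refine ⟨xx f Y', xx f (-Y), ?_⟩
        ext
        · simp only [re_add, re_mul, xx]
          linear_combination A * hd
        · simp only [im_add, im_mul, xx]
          ring
      · refine ⟨xx f (-X'), xx f X, ?_⟩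
        ext
        · simp only [re_add, re_mul, xx, by']
          linear_combination B * hd
        · simp only [im_add, im_mul, xx, by']
          linear_combination (-1) * hd
    · rw [idl, Ideal.span_le]
      intro w hw
      simp only [Set.mem_insert_iff, Set.mem_singleton_iff] at hw
      rw [SetLike.mem_coe, Ideal.mem_span_pair]
      rcases hw with rfl | rfl
      · refine ⟨xx f X, xx f Y, ?_⟩
        ext
        · simp only [re_add, re_mul, xx, by']
          ring
        · simp only [im_add, im_mul, xx, by']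
          ring
      · refine ⟨xx f X', xx f Y', ?_⟩
        ext
        · simp only [re_add, re_mul, xx, by']
          ring
        · simp only [im_add, im_mul, xx, by']
          ring
  have e1 : (⟨X * A + Y * B, Y⟩ : QA R f) * ⟨X * A + Y * B, -Y⟩ =
      xx f A * xx f (A * X ^ 2 + 2 * B * X * Y + C * Y ^ 2) := by
    ext
    · simp only [re_mul, xx]
      rw [← h]
      ring
    · simp only [im_mul, xx]
      ring
  have e2 : (⟨X * A + Y * B, Y⟩ : QA R f) * ⟨X' * A + Y' * B, -Y'⟩ =
      xx f A * by' f (A * X * X' + B * (X * Y' + X' * Y) + C * Y * Y') := by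
    ext
    · simp only [re_mul, xx, by']
      rw [← h]
      ring
    · simp only [im_mul, xx, by']
      linear_combination (-A) * hd
  rw [hs, idl, Ideal.span_mul_span', Ideal.span_mul_span']
  congr 1
  simp only [Set.singleton_mul, Set.image_insert_eq, Set.image_singleton, e1, e2]

end idl

end Pool.Agent.H458.PD
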