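import Pool.Agent.H458.PD.Loc
import Pool.Graph.R_seed8.Y160.SE.All
import Pool.Graph.R_pool_sql_team_seeded_63374d34.N874.Jac.Def

/-!
# The coordinate ring is a principal ideal domain
-/

set_option autoImplicit false
set_option linter.all false

open Polynomial
open scoped nonZeroDivisors

namespace Pool.Agent.H458.PD

open Pool.Agent.Y160.SE (CR yy xp cr_repr yy_pow)

section iso

variable {M : Type} [Field M] (P : M[X])

/-- The coordinate ring `M[x, y] / (y ^ 2 - P)` as a quadratic algebra. -/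
noncomputable def toQA : CR 2 P →+* QA M[X] P :=
  AdjoinRoot.lift (algebraMap M[X] (QA M[X] P)) (⟨0, 1⟩ : QA M[X] P) (by
    rw [eval₂_sub, eval₂_X_pow, eval₂_C, sub_eq_zero, pow_two]
    ext
    · simp
    · simp)

theorem toQA_eq (a b : M[X]) : toQA P (xp 2 P a + xp 2 P b * yy 2 P) = ⟨a, b⟩ := by
  unfold toQA
  rw [_root_.map_add, _root_.map_mul, AdjoinRoot.lift_of, AdjoinRoot.lift_of, AdjoinRoot.lift_root]
  ext
  · simp
  · simp

theorem cr_eq (z : CR 2 P) : ∃ a b : M[X], z = xp 2 P a + xp 2 P b * yy 2 P := by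
  obtain ⟨p, hp, rfl⟩ := cr_repr (f := P) two_ne_zero z
  refine ⟨p.coeff 0, p.coeff 1, ?_⟩
  have h1 : p = C (p.coeff 1) * X + C (p.coeff 0) := eq_X_add_C_of_natDegree_le_one (by omega)
  conv_lhs => rw [h1]
  rw [_root_.map_add, _root_.map_mul, AdjoinRoot.mk_C, AdjoinRoot.mk_C, AdjoinRoot.mk_X, add_comm]

theorem toQA_bij : Function.Bijective (toQA P) := by
  constructor
  · rw [injective_iff_map_eq_zero]
    intro z hz
    obtain ⟨a, b, rfl⟩ := cr_eq P z
    rw [toQA_eq] at hz
    have h1 := congrArg QuadraticAlgebra.re hz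
    have h2 := congrArg QuadraticAlgebra.im hz
    simp only [QuadraticAlgebra.re_zero, QuadraticAlgebra.im_zero] at h1 h2
    rw [h1, h2]
    simp
  · rintro ⟨a, b⟩
    exact ⟨_, toQA_eq P a b⟩

noncomputable def isoQA : CR 2 P ≃+* QA M[X] P := RingEquiv.ofBijective _ (toQA_bij P)

end iso

section brd

/-- Uniquely two-divisible with trivial infinitely divisible classes: the coordinate ring is principal. -/
theorem principal_ring {M : Type} [Field M] (h2 : (2 : M) ≠ 0) {P : M[X]} (hm : P.Monic)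
    (hs : P.Separable) (hd : Odd P.natDegree)
    (hdiv : ∀ c : CommRing.Pic (CR 2 P), ∃ d : CommRing.Pic (CR 2 P), d ^ 2 = c)
    (hL : ∀ I : Ideal (QA M[X] P), I ≠ ⊥ →
      (∀ n : ℕ, ∃ J : Ideal (QA M[X] P), J ≠ ⊥ ∧ Eqv (J ^ 2 ^ n) I) → ∃ x, Ideal.span {x} = I) :
    IsDedekindDomain (CR 2 P) ∧ IsPrincipalIdealRing (CR 2 P) := by
  have hg : Pool.Agent.Y160.SE.Good 2 (-1 : M) P := by
    refine ⟨Nat.prime_two, ?_, hm, hs, ?_⟩
    · have h1 : (-1 : M) ≠ 1 := by
        intro h
        apply h2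
        linear_combination (-1 : M) * h
      exact IsPrimitiveRoot.mk_of_lt _ two_pos (by norm_num) (by
        intro l hl0 hl
        have : l = 1 := by omega
        rw [this, pow_one]
        exact h1)
    · exact Nat.coprime_two_left.2 hd
  have hDed : IsDedekindDomain (CR 2 P) := Pool.Agent.Y160.SE.hyps.ring 2 M (-1) P hg
  refine ⟨hDed, ⟨fun I => ?_⟩⟩
  by_cases hI : I = ⊥
  · rw [hI]
    exact bot_isPrincipal
  obtain ⟨φ, hφ⟩ : ∃ φ : CR 2 P ≃+* QA M[X] P, φ = isoQA P := ⟨_, rfl⟩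
  haveI : IsDomain (QA M[X] P) := isDomain hd
  -- divisibility in the class group
  have hcl : ∀ n : ℕ, ∀ c : ClassGroup (CR 2 P), ∃ d : ClassGroup (CR 2 P), d ^ 2 ^ n = c := by
    intro n
    induction n with
    | zero => intro c; exact ⟨c, by rw [pow_zero, pow_one]⟩
    | succ n ih =>
      intro c
      obtain ⟨d, hd⟩ := ih c
      obtain ⟨e, he⟩ := hdiv (ClassGroup.equivPic (CR 2 P) d)
      refine ⟨(ClassGroup.equivPic (CR 2 P)).symm e, ?_⟩
      have h3 : (ClassGroup.equivPic (CR 2 P)).symm e ^ 2 = d := by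
        rw [← _root_.map_pow, he, MulEquiv.symm_apply_apply]
      have h4 : (2 : ℕ) ^ (n + 1) = 2 * 2 ^ n := by ring
      rw [h4, pow_mul, h3, hd]
  have hne : ∀ {J : Ideal (CR 2 P)}, J ≠ ⊥ → J.map (φ : CR 2 P →+* QA M[X] P) ≠ ⊥ := by
    intro J hJ h
    apply hJ
    exact (Ideal.map_eq_bot_iff_of_injective (f := (φ : CR 2 P →+* QA M[X] P)) φ.injective).1 h
  obtain ⟨x, hx⟩ := hL (I.map (φ : CR 2 P →+* QA M[X] P)) (hne hI) (by
    intro n
    obtain ⟨d, hd⟩ := hcl n (ClassGroup.mk0 ⟨I, mem_nonZeroDivisors_of_ne_zero hI⟩)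
    obtain ⟨⟨J, hJ⟩, rfl⟩ := ClassGroup.mk0_surjective d
    rw [← _root_.map_pow, ClassGroup.mk0_eq_mk0_iff] at hd
    obtain ⟨a, b, ha, hb, h⟩ := hd
    refine ⟨J.map (φ : CR 2 P →+* QA M[X] P), hne (nonZeroDivisors.ne_zero hJ), φ a, φ b, ?_, ?_, ?_⟩
    · rw [Ne, EmbeddingLike.map_eq_zero_iff]; exact ha
    · rw [Ne, EmbeddingLike.map_eq_zero_iff]; exact hb
    · have h4 := congrArg (Ideal.map (φ : CR 2 P →+* QA M[X] P)) h
      rw [Ideal.map_mul, Ideal.map_mul, Ideal.map_span, Ideal.map_span, Set.image_singleton,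
        Set.image_singleton] at h4
      rw [← Ideal.map_pow]
      exact h4)
  refine ⟨⟨φ.symm x, ?_⟩⟩
  have h5 := congrArg (Ideal.map (φ.symm : QA M[X] P →+* CR 2 P)) hx
  rw [Ideal.map_span, Set.image_singleton, Ideal.map_map] at h5
  have h6 : ((φ.symm : QA M[X] P →+* CR 2 P)).comp (φ : CR 2 P →+* QA M[X] P) = RingHom.id _ := by
    ext z <;> simp
  rw [h6, Ideal.map_id] at h5
  rw [← h5]
  rfl

theorem nm_mul {R : Type} [CommRing R] {f : R} (a b : QA R f) : nm (a * b) = nm a * nm b := by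
  unfold nm
  simp only [QuadraticAlgebra.re_mul, QuadraticAlgebra.im_mul]
  ring

/-- The degree of a norm is even or at least the degree of `P`. -/
theorem nm_deg {M : Type} [Field M] {P : M[X]} (hd : Odd P.natDegree) (w : QA M[X] P) :
    Even (nm w).natDegree ∨ P.natDegree ≤ (nm w).natDegree := by
  have hP0 : P ≠ 0 := by
    rintro rfl
    simp at hd
  unfold nm
  by_cases h1 : w.im = 0
  · left
    rw [h1, zero_pow two_ne_zero, mul_zero, sub_zero, natDegree_pow]
    exact even_two_mul _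
  · have e1 : (P * w.im ^ 2).natDegree = P.natDegree + 2 * w.im.natDegree := by
      rw [natDegree_mul hP0 (pow_ne_zero _ h1), natDegree_pow]
    have e2 : (w.re ^ 2).natDegree = 2 * w.re.natDegree := natDegree_pow _ _
    right
    obtain ⟨m, hm⟩ := hd
    rcases lt_trichotomy (w.re ^ 2).natDegree (P * w.im ^ 2).natDegree with h | h | h
    · rw [natDegree_sub_eq_right_of_natDegree_lt h]
      omega
    · omega
    · rw [natDegree_sub_eq_left_of_natDegree_lt h]
      omega

theorem unit_of_nm {M : Type} [Field M] {P : M[X]} {w : QA M[X] P} (h : IsUnit (nm w)) :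
    IsUnit w := by
  obtain ⟨u, hu⟩ := h
  refine IsUnit.of_mul_eq_one (cj P w * xx P ((u⁻¹ : (M[X])ˣ) : M[X])) ?_
  rw [← mul_assoc, mul_cj, ← xx_mul, ← hu, Units.mul_inv]
  rfl

/-- A point gives an ideal which is not principal. -/
theorem no_points {M : Type} [Field M] {P : M[X]} (hd : Odd P.natDegree)
    (hd3 : 1 < P.natDegree)
    (hpr : IsPrincipalIdealRing (CR 2 P)) (a b : M) : b ^ 2 ≠ P.eval a := by
  intro hab
  haveI : IsDomain (QA M[X] P) := isDomain hd
  obtain ⟨c, hc⟩ : (X - C a) ∣ (C b) ^ 2 - P := by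
    rw [dvd_iff_isRoot, IsRoot.def, eval_sub, eval_pow, eval_C, hab, sub_self]
  have h : (C b) ^ 2 - (X - C a) * c = P := by rw [← hc]; ring
  haveI : IsPrincipalIdealRing (QA M[X] P) :=
    IsPrincipalIdealRing.of_surjective ((isoQA P) : CR 2 P →+* QA M[X] P) (isoQA P).surjective
  obtain ⟨e, he⟩ := (IsPrincipalIdealRing.principal (idl P (X - C a) (C b))).principal
  have he : idl P (X - C a) (C b) = Ideal.span {e} := he
  have hA1 : ¬ IsUnit (X - C a) := (irreducible_X_sub_C a).not_isUnit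
  have hxA : xx P (X - C a) ∈ Ideal.span {e} := by
    rw [← he, mem_idl h]
    simp [xx]
  obtain ⟨e', he'⟩ := Ideal.mem_span_singleton.1 hxA
  have hn : nm e * nm e' = (X - C a) ^ 2 := by
    rw [← nm_mul, ← he']
    simp [nm, xx]
  obtain ⟨i, hi, hass⟩ := (dvd_prime_pow (prime_X_sub_C a) 2).1 (Dvd.intro _ hn)
  have hi2 : (nm e).natDegree = i := by
    rw [Polynomial.natDegree_eq_of_degree_eq (Polynomial.degree_eq_degree_of_associated hass),
      natDegree_pow, natDegree_X_sub_C, mul_one]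
  have h3 := nm_deg hd e
  rw [hi2] at h3
  interval_cases i
  · have h4 : IsUnit (nm e) := by
      rw [pow_zero] at hass
      exact associated_one_iff_isUnit.1 hass
    have h5 : (1 : QA M[X] P) ∈ idl P (X - C a) (C b) := by
      rw [he, Ideal.span_singleton_eq_top.2 (unit_of_nm h4)]
      trivial
    rw [mem_idl h] at h5
    apply hA1
    apply isUnit_of_dvd_one
    have h6 : (1 : QA M[X] P).re + (1 : QA M[X] P).im * C b = 1 := by
      rw [QuadraticAlgebra.re_one, QuadraticAlgebra.im_one]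
      ring
    rwa [h6] at h5
  · rcases h3 with h3 | h3
    · exact (by decide : ¬ Even 1) h3
    · omega
  · have h4 : IsUnit (nm e') := by
      obtain ⟨u, hu⟩ := hass
      have h6 : nm e ≠ 0 := by
        intro h0
        rw [h0, zero_mul] at hu
        exact pow_ne_zero _ (X_sub_C_ne_zero a) hu.symm
      have h5 : nm e' = u := by
        apply mul_left_cancel₀ h6
        rw [hn, hu]
      rw [h5]
      exact u.isUnit
    have h5 : by' P (C b) ∈ idl P (X - C a) (C b) := by
      rw [mem_idl h]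
      simp [by']
    rw [he] at h5
    obtain ⟨z, hz⟩ := Ideal.mem_span_singleton.1 h5
    obtain ⟨u, hu⟩ := unit_of_nm h4
    have h6 : xx P (X - C a) ∣ by' P (C b) := by
      refine ⟨((u⁻¹ : (QA M[X] P)ˣ) : QA M[X] P) * z, ?_⟩
      rw [he', ← hu, hz]
      calc e * z = e * ((u : QA M[X] P) * ((u⁻¹ : (QA M[X] P)ˣ) : QA M[X] P)) * z := by
            rw [Units.mul_inv, mul_one]
        _ = _ := by ring
    have h7 := (xx_dvd'.1 h6).2
    apply hA1
    apply isUnit_of_dvd_one
    have h8 : (by' P (C b)).im = -1 := rfl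
    rw [h8] at h7
    exact (dvd_neg.1 h7)

end brd

end Pool.Agent.H458.PD
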