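import Pool.Agent.H458.PD.Glo
import Pool.Agent.H458.RC.Cls
import Pool.Graph.R_pool_sql_team_seeded_63374d34.N823.PF.Gf
import Mathlib.Algebra.Polynomial.Lifts
import Mathlib.FieldTheory.Perfect

/-!
# Existence of a regular residue class

After `H905/OP/Ex.lean` (helper905).
-/

set_option autoImplicit false
set_option linter.all false

open Polynomial IsDedekindDomain NumberField

namespace Pool.Agent.H458.PD

open Pool.Agent.N352.PF (rv)

/-- Regularity at a prime ideal (helper905). -/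
def RegV {R : Type} [CommRing R] (v : Ideal R) (ϖ : R) (f : R[X]) : Prop :=
  ∃ h k u : R[X], ∀ j, (f - (X * h ^ 2 + k ^ 2 + C ϖ * (1 + u * h))).coeff j ∈ v ^ 2

theorem RegV.at {F : Type} [Field F] [NumberField F] {v : HeightOneSpectrum (𝓞 F)} {ϖ : 𝓞 F}
    {f : (𝓞 F)[X]} (h1 : ϖ ∈ v.asIdeal) (h2 : ϖ ∉ v.asIdeal ^ 2) (h : RegV v.asIdeal ϖ f) :
    RegAt v f := by
  obtain ⟨h, k, u, hh⟩ := h
  refine ⟨ϖ, k, h, 1 + u * h, 1, -u, h1, h2, fun j => ?_, fun j => ?_⟩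
  · have e : k ^ 2 + X * h ^ 2 + C ϖ * (1 + u * h) = X * h ^ 2 + k ^ 2 + C ϖ * (1 + u * h) := by
      ring
    rw [e]
    exact hh j
  · have e : 1 * (1 + u * h) + -u * h - 1 = 0 := by ring
    rw [e, coeff_zero]
    exact Ideal.zero_mem _

/-- Decomposition of polynomials over a finite field of characteristic two. -/
theorem dec2 {κ : Type*} [Field κ] [Finite κ] (h2 : (2 : κ) = 0) (P : κ[X]) :
    ∃ a b : κ[X], P = X * a ^ 2 + b ^ 2 := by
  have : CharP κ 2 := CharTwo.of_one_ne_zero_of_two_eq_zero one_ne_zero h2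
  have hsq : ∀ c : κ, ∃ d : κ, d ^ 2 = c := fun c => by
    obtain ⟨d, hd⟩ := (PerfectField.toPerfectRing (K := κ) 2).bijective_frobenius.2 c
    exact ⟨d, hd⟩
  have hp2 : (2 : κ[X]) = 0 := by
    rw [show (2 : κ[X]) = C (2 : κ) from rfl, h2, C_0]
  induction P using Polynomial.induction_on' with
  | add p q hp hq =>
    obtain ⟨a, b, hab⟩ := hp
    obtain ⟨a', b', hab'⟩ := hq
    refine ⟨a + a', b + b', ?_⟩
    rw [hab, hab']
    linear_combination (-(X * a * a') - b * b') * hp2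
  | monomial n c =>
    obtain ⟨d, hd⟩ := hsq c
    rcases Nat.even_or_odd' n with ⟨m, hm | hm⟩
    · refine ⟨0, monomial m d, ?_⟩
      rw [zero_pow two_ne_zero, mul_zero, zero_add, monomial_pow, hd, hm, mul_comm]
    · refine ⟨monomial m d, 0, ?_⟩
      rw [zero_pow two_ne_zero, add_zero, monomial_pow, hd, hm, X_mul_monomial, mul_comm m 2]

/-- The part `a` is monic. -/
theorem dec2_monic {κ : Type*} [Field κ] [Finite κ] (h2 : (2 : κ) = 0) {P a b : κ[X]} {g : ℕ}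
    (hm : P.Monic) (hd : P.natDegree = 2 * g + 1) (h : P = X * a ^ 2 + b ^ 2) :
    a.Monic ∧ a.natDegree = g := by
  have ha0 : a ≠ 0 := by
    rintro rfl
    rw [zero_pow two_ne_zero, mul_zero, zero_add] at h
    have := congrArg natDegree h
    rw [hd, natDegree_pow] at this
    omega
  have hXa : (X * a ^ 2).natDegree = 2 * a.natDegree + 1 := by
    rw [natDegree_X_mul (pow_ne_zero 2 ha0), natDegree_pow]
  have hb : (b ^ 2).natDegree = 2 * b.natDegree := natDegree_pow _ _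
  rcases Nat.lt_or_ge (b ^ 2).natDegree (X * a ^ 2).natDegree with h3 | h3
  · have h4 : P.natDegree = (X * a ^ 2).natDegree := by
      rw [h, natDegree_add_eq_left_of_natDegree_lt h3]
    have h5 : P.leadingCoeff = (X * a ^ 2).leadingCoeff := by
      rw [h]
      exact leadingCoeff_add_of_degree_lt' (degree_lt_degree h3)
    rw [hm.leadingCoeff, leadingCoeff_mul, leadingCoeff_X, one_mul, leadingCoeff_pow] at h5
    constructor
    · have h6 : (a.leadingCoeff - 1) ^ 2 = 0 := by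
        linear_combination (-a.leadingCoeff + 1) * h2 - h5
      have h7 := pow_eq_zero_iff (two_ne_zero) |>.1 h6
      exact sub_eq_zero.1 h7
    · omega
  · have h3' : (X * a ^ 2).natDegree < (b ^ 2).natDegree := by omega
    have h4 : P.natDegree = (b ^ 2).natDegree := by
      rw [h, natDegree_add_eq_right_of_natDegree_lt h3']
    omega

section

variable {R : Type} [CommRing R] [IsDedekindDomain R] (v : HeightOneSpectrum R)

theorem v_dec {ϖ : R} (h1 : ϖ ∈ v.asIdeal) (h2 : ϖ ∉ v.asIdeal ^ 2) {x : R} (hx : x ∈ v.asIdeal) :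
    ∃ a : R, x - ϖ * a ∈ v.asIdeal ^ 2 := by
  have h3 : Ideal.span {ϖ} ⊔ v.asIdeal ^ 2 = v.asIdeal := by
    have h4 := Ideal.eq_prime_pow_of_succ_lt_of_le (P := v.asIdeal)
      (I := Ideal.span {ϖ} ⊔ v.asIdeal ^ 2) v.ne_bot (i := 1) ?_ ?_
    · rwa [pow_one] at h4
    · refine lt_of_le_of_ne le_sup_right fun h5 => h2 ?_
      rw [show (1 + 1 : ℕ) = 2 from rfl] at h5
      rw [h5]
      exact (le_sup_left : Ideal.span {ϖ} ≤ _) (Ideal.mem_span_singleton_self ϖ)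
    · rw [pow_one]
      refine sup_le ((Ideal.span_singleton_le_iff_mem _).2 h1) (Ideal.pow_le_self two_ne_zero)
  rw [← h3, Ideal.mem_span_singleton_sup] at hx
  obtain ⟨a, b, hb, hab⟩ := hx
  refine ⟨a, ?_⟩
  have h5 : x - ϖ * a = b := by linear_combination -hab
  rw [h5]
  exact hb

theorem v_dec_pol {ϖ : R} (h1 : ϖ ∈ v.asIdeal) (h2 : ϖ ∉ v.asIdeal ^ 2) {f : R[X]}
    (hf : ∀ j, f.coeff j ∈ v.asIdeal) :
    ∃ m : R[X], ∀ j, (f - C ϖ * m).coeff j ∈ v.asIdeal ^ 2 := by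
  choose a ha using fun j => v_dec v h1 h2 (hf j)
  refine ⟨∑ i ∈ Finset.range (f.natDegree + 1), C (a i) * X ^ i, fun j => ?_⟩
  rw [coeff_sub, coeff_C_mul, finsetSum_coeff]
  simp only [coeff_C_mul, coeff_X_pow, mul_ite, mul_one, mul_zero]
  rw [Finset.sum_ite_eq (Finset.range (f.natDegree + 1)) j a]
  split_ifs with h
  · exact ha j
  · rw [Finset.mem_range, not_lt] at h
    rw [coeff_eq_zero_of_natDegree_lt (by omega), mul_zero, sub_zero]
    exact Ideal.zero_mem _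

/-- The adjustment to a regular polynomial. -/
theorem adj [Finite (R ⧸ v.asIdeal)] {ϖ : R} (h1 : ϖ ∈ v.asIdeal) (h2 : ϖ ∉ v.asIdeal ^ 2)
    (h3 : (2 : R) ∈ v.asIdeal) {f : R[X]} {g : ℕ} (hm : f.Monic)
    (hd : f.natDegree = 2 * g + 1) :
    ∃ r : R[X], r.degree < (g : WithBot ℕ) ∧ RegV v.asIdeal ϖ (f + C ϖ * r) := by
  have hmax : v.asIdeal.IsMaximal := v.isMaximal
  letI : Field (R ⧸ v.asIdeal) := Ideal.Quotient.field v.asIdeal
  have k2 : (2 : R ⧸ v.asIdeal) = 0 := by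
    have := Ideal.Quotient.eq_zero_iff_mem.2 h3
    rwa [map_ofNat] at this
  obtain ⟨a, b, hab⟩ := dec2 k2 (f.map (Ideal.Quotient.mk v.asIdeal))
  obtain ⟨ham, had⟩ := dec2_monic k2 (hm.map _) (by rw [hm.natDegree_map, hd]) hab
  obtain ⟨h, hh1, hh2, hh3⟩ := lifts_and_natDegree_eq_and_monic
    (f := Ideal.Quotient.mk v.asIdeal) (p := a) (by
      rw [mem_lifts]
      exact map_surjective _ Ideal.Quotient.mk_surjective a) ham
  obtain ⟨k, hk⟩ := map_surjective _ Ideal.Quotient.mk_surjective b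
  have hmem : ∀ j, (f - (X * h ^ 2 + k ^ 2)).coeff j ∈ v.asIdeal := by
    intro j
    rw [← Ideal.Quotient.eq_zero_iff_mem, ← coeff_map]
    have : (f - (X * h ^ 2 + k ^ 2)).map (Ideal.Quotient.mk v.asIdeal) = 0 := by
      rw [Polynomial.map_sub, hab]
      simp only [Polynomial.map_add, Polynomial.map_mul, Polynomial.map_pow, map_X]
      rw [hh1, hk, sub_self]
    rw [this, coeff_zero]
  obtain ⟨m, hm'⟩ := v_dec_pol v h1 h2 hmem
  refine ⟨(1 - m) %ₘ h, ?_, h, k, -((1 - m) /ₘ h), fun j => ?_⟩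
  · have h4 := degree_modByMonic_lt (1 - m) hh3
    rwa [degree_eq_natDegree hh3.ne_zero, hh2, had] at h4
  · have h4 := modByMonic_add_div (1 - m) h
    have h5 : f + C ϖ * ((1 - m) %ₘ h) - (X * h ^ 2 + k ^ 2 + C ϖ * (1 + -((1 - m) /ₘ h) * h)) =
        f - (X * h ^ 2 + k ^ 2) - C ϖ * m := by
      linear_combination (C ϖ) * h4
    rw [h5]
    exact hm' j

end

/-- There is a prime over two. -/
theorem exists_two (F : Type) [Field F] [NumberField F] :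
    ∃ v : HeightOneSpectrum (𝓞 F), (2 : 𝓞 F) ∈ v.asIdeal := by
  have hm : (Ideal.span {(2 : ℤ)}).IsMaximal :=
    PrincipalIdealRing.isMaximal_of_irreducible (Int.prime_two.irreducible)
  obtain ⟨Q, hQ, hl⟩ := Ideal.exists_maximal_ideal_liesOver_of_isIntegral (S := 𝓞 F)
    (Ideal.span {(2 : ℤ)})
  have h2 : (2 : 𝓞 F) ∈ Q := by
    have h3 : (2 : ℤ) ∈ Q.under ℤ := by
      rw [← hl.over]
      exact Ideal.mem_span_singleton_self _
    rw [Ideal.under, Ideal.mem_comap, map_ofNat] at h3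
    exact h3
  refine ⟨⟨Q, hQ.isPrime, ?_⟩, h2⟩
  rintro rfl
  exact two_ne_zero ((Ideal.mem_bot).1 h2)

/-- **The residue class.** -/
theorem gf_reg (F : Type) [Field F] [NumberField F] (g M : ℕ) (hg : 1 ≤ g) :
    ∃ (W : ℕ) (f₁ : (𝓞 F)[X]) (v : HeightOneSpectrum (𝓞 F)) (ϖ : 𝓞 F),
      f₁.Monic ∧ f₁.natDegree = 2 * g + 1 ∧ f₁.coeff (2 * g) = 0 ∧ 0 < W ∧ 4 ∣ W ∧
      (∀ v : HeightOneSpectrum (𝓞 F), (2 : 𝓞 F) ∈ v.asIdeal → Irreducible (rv v f₁)) ∧
      (∀ v : HeightOneSpectrum (𝓞 F), (W : 𝓞 F) ∈ v.asIdeal → (rv v f₁).Separable) ∧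
      (∀ p : ℕ, p.Prime → p ≤ M → p ∣ W) ∧
      ϖ ∈ v.asIdeal ∧ ϖ ∉ v.asIdeal ^ 2 ∧ (2 : 𝓞 F) ∈ v.asIdeal ∧ RegV v.asIdeal ϖ f₁ := by
  classical
  obtain ⟨W, f₁, hm, hd, ht, hW, h2W, hirr, hsep, hp⟩ := Pool.Agent.N823.PF.gf F g M hg
  obtain ⟨v, hv⟩ := exists_two F
  obtain ⟨ϖ₀, hϖ1, hϖ2⟩ := Ideal.exists_mem_pow_notMem_pow_succ v.asIdeal v.ne_bot
    v.isPrime.ne_top 1
  rw [pow_one] at hϖ1
  have hWne : Ideal.span {(W : 𝓞 F)} ≠ 0 := by
    rw [Ne, Ideal.zero_eq_bot, Ideal.span_singleton_eq_bot]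
    exact_mod_cast hW.ne'
  have hfinS := Ideal.finite_factors hWne
  set T : Finset (HeightOneSpectrum (𝓞 F)) := hfinS.toFinset with hT
  have hmem : ∀ w : HeightOneSpectrum (𝓞 F), (W : 𝓞 F) ∈ w.asIdeal → w ∈ T := by
    intro w hw
    rw [hT, Set.Finite.mem_toFinset, Set.mem_ofPred_eq, Ideal.dvd_span_singleton]
    exact hw
  have h2m : ∀ w : HeightOneSpectrum (𝓞 F), (2 : 𝓞 F) ∈ w.asIdeal → (W : 𝓞 F) ∈ w.asIdeal := by
    intro w hw
    obtain ⟨m, hm⟩ := h2W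
    rw [hm, Nat.cast_mul, Nat.cast_ofNat]
    exact Ideal.mul_mem_right _ _ hw
  obtain ⟨ϖ, hϖ⟩ := IsDedekindDomain.exists_forall_sub_mem_ideal (s := T)
    (fun w => w.asIdeal) (fun _ => 2) (fun w _ => w.prime)
    (fun w _ w' _ hww h => hww (HeightOneSpectrum.ext h))
    (fun w => if w.1 = v then ϖ₀ else 0)
  have hv1 := hϖ v (hmem v (h2m v hv))
  simp only [if_true] at hv1
  have hϖv : ϖ ∈ v.asIdeal := by
    have h3 := Ideal.add_mem _ (Ideal.pow_le_self two_ne_zero hv1) hϖ1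
    rwa [sub_add_cancel] at h3
  have hϖv2 : ϖ ∉ v.asIdeal ^ 2 := by
    intro h3
    apply hϖ2
    have h4 := Ideal.sub_mem _ h3 hv1
    rwa [sub_sub_cancel] at h4
  have hϖw : ∀ w : HeightOneSpectrum (𝓞 F), (W : 𝓞 F) ∈ w.asIdeal → ϖ ∈ w.asIdeal := by
    intro w hw
    by_cases h3 : w = v
    · rw [h3]; exact hϖv
    · have h4 := hϖ w (hmem w hw)
      simp only [h3, if_false, sub_zero] at h4
      exact Ideal.pow_le_self two_ne_zero h4
  have : Finite (𝓞 F ⧸ v.asIdeal) := Ideal.finiteQuotientOfFreeOfNeBot v.asIdeal v.ne_bot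
  obtain ⟨r, hr1, hr2⟩ := adj v hϖv hϖv2 hv hm hd
  have hr3 : (C ϖ * r).degree < (g : WithBot ℕ) :=
    lt_of_le_of_lt (by
      refine (degree_mul_le _ _).trans ?_
      calc (C ϖ).degree + r.degree ≤ 0 + r.degree := by gcongr; exact degree_C_le
        _ = r.degree := zero_add _) hr1
  have hr4 : (C ϖ * r).degree < f₁.degree := by
    rw [degree_eq_natDegree hm.ne_zero, hd]
    exact hr3.trans (by exact_mod_cast (by omega : g < 2 * g + 1))
  have hrm : ∀ w : HeightOneSpectrum (𝓞 F), (W : 𝓞 F) ∈ w.asIdeal →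
      rv w (f₁ + C ϖ * r) = rv w f₁ := by
    intro w hw
    rw [rv, rv, Polynomial.map_add, Polynomial.map_mul, map_C,
      Ideal.Quotient.eq_zero_iff_mem.2 (hϖw w hw), C_0, zero_mul, add_zero]
  have hW2 : ∀ w : HeightOneSpectrum (𝓞 F), ((2 * W : ℕ) : 𝓞 F) ∈ w.asIdeal →
      (W : 𝓞 F) ∈ w.asIdeal := by
    intro w hw
    rw [Nat.cast_mul] at hw
    rcases w.isPrime.mem_or_mem hw with h | h
    · exact h2m w (by exact_mod_cast h)
    · exact h
  refine ⟨2 * W, f₁ + C ϖ * r, v, ϖ, ?_, ?_, ?_, by omega, ?_, ?_, ?_, ?_, hϖv, hϖv2, hv, hr2⟩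
  · exact hm.add_of_left hr4
  · rw [natDegree_add_eq_left_of_degree_lt hr4, hd]
  · rw [coeff_add, ht, zero_add]
    exact coeff_eq_zero_of_degree_lt (hr3.trans (by exact_mod_cast (by omega : g < 2 * g)))
  · obtain ⟨m, hm⟩ := h2W
    exact ⟨m, by rw [hm]; ring⟩
  · intro w hw
    rw [hrm w (h2m w hw)]
    exact hirr w hw
  · intro w hw
    rw [hrm w (hW2 w hw)]
    exact hsep w (hW2 w hw)
  · exact fun p hp1 hp2 => Dvd.dvd.mul_left (hp p hp1 hp2) 2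

/-- The residue class modulo four. -/
theorem ex4 (F : Type) [Field F] [NumberField F] (g : ℕ) (hg : 1 ≤ g) :
    ∃ (f₂ : (𝓞 F)[X]) (v : HeightOneSpectrum (𝓞 F)), (2 : 𝓞 F) ∈ v.asIdeal ∧ f₂.Monic ∧
      f₂.natDegree = 2 * g + 1 ∧ f₂.coeff (2 * g) = 0 ∧
      (∀ 𝔭 : Ideal (𝓞 F), 𝔭.IsPrime → ((4 : ℕ) : 𝓞 F) ∈ 𝔭 →
        Irreducible (Pool.Agent.N783.PF.rd 𝔭 f₂)) ∧ RegAt v f₂ := by
  obtain ⟨W, f₁, v, ϖ, hm, hd, ht, -, -, hirr, -, -, h1, h2, h3, h4⟩ := gf_reg F g 1 hg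
  refine ⟨f₁, v, h3, hm, hd, ht, ?_, h4.at h1 h2⟩
  intro 𝔭 hp h5
  have h6 : (2 : 𝓞 F) ∈ 𝔭 := by
    have h7 : ((4 : ℕ) : 𝓞 F) = 2 * 2 := by norm_num
    rw [h7] at h5
    exact (hp.mem_or_mem h5).elim id id
  have hb : 𝔭 ≠ ⊥ := by
    rintro rfl
    exact two_ne_zero ((Ideal.mem_bot).1 h6)
  exact hirr ⟨𝔭, hp, hb⟩ h6

end Pool.Agent.H458.PD
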