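import Pool.Agent.H458.PD.Val

/-!
# The local theorem for number fields
-/

set_option autoImplicit false
set_option linter.all false

open Polynomial IsDedekindDomain NumberField WithZero
open scoped Classical

namespace Pool.Agent.H458.PD

open Pool.Agent.Y160.SE (CR)

section glo

variable {F : Type} [Field F] [NumberField F]

/-- `y ^ 2 = f(x)` is regular at the points over `v`: `f` is congruent to `E ^ 2 + x G ^ 2 + π r` modulo
`v ^ 2`, where `π` is a uniformizer and `r` and `G` are coprime modulo `v`. -/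
def RegAt (v : HeightOneSpectrum (𝓞 F)) (f : (𝓞 F)[X]) : Prop :=
  ∃ (π : 𝓞 F) (E G r a b : (𝓞 F)[X]), π ∈ v.asIdeal ∧ π ∉ v.asIdeal ^ 2 ∧
    (∀ j, (f - (E ^ 2 + X * G ^ 2 + C π * r)).coeff j ∈ v.asIdeal ^ 2) ∧
    ∀ j, (a * r + b * G - 1).coeff j ∈ v.asIdeal

theorem RegAt.congr {v : HeightOneSpectrum (𝓞 F)} {f f' : (𝓞 F)[X]} (h : RegAt v f)
    (hc : ∀ j, f'.coeff j - f.coeff j ∈ v.asIdeal ^ 2) : RegAt v f' := by
  obtain ⟨π, E, G, r, a, b, h1, h2, h3, h4⟩ := h
  refine ⟨π, E, G, r, a, b, h1, h2, fun j => ?_, h4⟩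
  have h5 := (v.asIdeal ^ 2).add_mem (h3 j) (hc j)
  rw [coeff_sub] at h5 ⊢
  have e : f.coeff j - (E ^ 2 + X * G ^ 2 + C π * r).coeff j + (f'.coeff j - f.coeff j) =
      f'.coeff j - (E ^ 2 + X * G ^ 2 + C π * r).coeff j := by ring
  rwa [e] at h5

variable {M : Type} [Field M] [Algebra F M] {v : HeightOneSpectrum (𝓞 F)}
  (σ : M →ₐ[F] v.adicCompletion F)

/-- The valuation of `M` given by an embedding in the completion. -/
noncomputable def vu : Valuation M ℤᵐ⁰ :=
  (Valued.v : Valuation (v.adicCompletion F) ℤᵐ⁰).comap (σ : M →+* v.adicCompletion F)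

theorem vu_eq (a : 𝓞 F) : vu σ (algebraMap F M (a : F)) = v.intValuation a := by
  unfold vu
  rw [Valuation.comap_apply]
  have h1 : (σ : M →+* v.adicCompletion F) (algebraMap F M (a : F)) =
      ((a : F) : v.adicCompletion F) := σ.commutes _
  rw [h1]
  exact v.valuedAdicCompletion_eq_valuation a |>.trans (v.valuation_of_algebraMap a)

/-- The homomorphism from the integers of `F` to the valuation ring. -/
noncomputable def io : 𝓞 F →+* (vu σ).valuationSubring where
  toFun a := ⟨algebraMap F M (a : F), by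
    rw [Valuation.mem_valuationSubring_iff, vu_eq]
    exact v.intValuation_le_one a⟩
  map_zero' := by apply Subtype.ext; simp
  map_one' := by apply Subtype.ext; simp
  map_add' a b := by apply Subtype.ext; simp
  map_mul' a b := by apply Subtype.ext; simp

theorem io_coe (a : 𝓞 F) : ((io σ a : (vu σ).valuationSubring) : M) = algebraMap F M (a : F) := rfl

theorem io_un {π : 𝓞 F} (h1 : π ∈ v.asIdeal) (h2 : π ∉ v.asIdeal ^ 2) :
    Un (vu σ) (io σ π) := by
  constructor
  rw [io_coe, vu_eq]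
  have h3 : v.intValuation π ≤ exp (-((1 : ℕ) : ℤ)) :=
    (v.intValuation_le_pow_iff_mem π 1).2 (by rw [pow_one]; exact h1)
  have h4 : ¬ v.intValuation π ≤ exp (-((2 : ℕ) : ℤ)) := fun h => h2
    ((v.intValuation_le_pow_iff_mem π 2).1 h)
  have h0 : v.intValuation π ≠ 0 := by
    intro h
    apply h4
    rw [h]
    exact zero_le'
  obtain ⟨m, hm⟩ : ∃ m : ℤ, v.intValuation π = exp m := ⟨_, (exp_log h0).symm⟩
  rw [hm, exp_le_exp] at h3 h4
  rw [hm]
  congr 1
  push_cast at h3 h4
  omega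

theorem io_dvd {π : 𝓞 F} (h1 : π ∈ v.asIdeal) (h2 : π ∉ v.asIdeal ^ 2) {a : 𝓞 F} {n : ℕ}
    (ha : a ∈ v.asIdeal ^ n) : io σ π ^ n ∣ io σ a := by
  rw [(io_un σ h1 h2).dvd, io_coe, vu_eq]
  exact (v.intValuation_le_pow_iff_mem a n).2 ha

theorem io_reg {f : (𝓞 F)[X]} (h : RegAt v f) : ∃ π : 𝓞 F, π ∈ v.asIdeal ∧ π ∉ v.asIdeal ^ 2 ∧
    Reg (IsLocalRing.residue (vu σ).valuationSubring) (io σ π) (f.map (io σ)) := by
  obtain ⟨π, E, G, r, a, b, h1, h2, h3, h4⟩ := h
  refine ⟨π, h1, h2, ?_⟩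
  have U := io_un σ h1 h2
  obtain ⟨s, hs⟩ : ∃ s, (f - (E ^ 2 + X * G ^ 2 + C π * r)).map (io σ) = C (io σ π ^ 2) * s := by
    apply (C_dvd_iff_dvd_coeff _ _).2
    intro j
    rw [coeff_map]
    exact io_dvd σ h1 h2 (h3 j)
  have hπ0 : IsLocalRing.residue (vu σ).valuationSubring (io σ π) = 0 := U.res.2 (dvd_refl _)
  refine ⟨E.map (io σ), G.map (io σ), r.map (io σ) + C (io σ π) * s, ?_, ?_⟩
  · have h5 : f.map (io σ) = (f - (E ^ 2 + X * G ^ 2 + C π * r)).map (io σ) +
        (E ^ 2 + X * G ^ 2 + C π * r).map (io σ) := by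
      rw [← Polynomial.map_add, sub_add_cancel]
    rw [h5, hs]
    simp only [Polynomial.map_add, Polynomial.map_mul, Polynomial.map_pow, map_X, map_C,
      _root_.map_pow]
    ring
  · refine ⟨(a.map (io σ)).map (IsLocalRing.residue (vu σ).valuationSubring),
      (b.map (io σ)).map (IsLocalRing.residue (vu σ).valuationSubring), ?_⟩
    have h5 : ((a * r + b * G - 1).map (io σ)).map (IsLocalRing.residue (vu σ).valuationSubring) =
        0 := by
      ext j
      rw [coeff_map, coeff_map, coeff_zero, U.res]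
      have := io_dvd σ h1 h2 (n := 1) (a := (a * r + b * G - 1).coeff j)
        (by rw [pow_one]; exact h4 j)
      rwa [pow_one] at this
    simp only [Polynomial.map_add, Polynomial.map_mul, Polynomial.map_sub, Polynomial.map_one,
      map_C] at h5 ⊢
    rw [hπ0, C_0, zero_mul, add_zero]
    linear_combination h5

include σ in
/-- **The theorem on ideal classes for an extension of `F` which can be embedded in the completion of `F`
at a prime over `2` where `y ^ 2 = f(x)` is regular.** -/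
theorem glo (hσ : (2 : 𝓞 F) ∈ v.asIdeal) {f : (𝓞 F)[X]} (hR : RegAt v f) (hm : f.Monic) {g : ℕ}
    (hd : f.natDegree = 2 * g + 1) {P : M[X]}
    (hP : P = (f.map (algebraMap (𝓞 F) F)).map (algebraMap F M))
    {I : Ideal (QA M[X] P)} (hI : I ≠ ⊥)
    (hdiv : ∀ n : ℕ, ∃ J : Ideal (QA M[X] P), J ≠ ⊥ ∧ Eqv (J ^ 2 ^ n) I) :
    ∃ x, Ideal.span {x} = I := by
  obtain ⟨π, h1, h2, h3⟩ := io_reg σ hR
  have U := io_un σ h1 h2
  haveI := U.dvr
  have h2k : (2 : IsLocalRing.ResidueField (vu σ).valuationSubring) = 0 := by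
    have h4 : IsLocalRing.residue (vu σ).valuationSubring (io σ 2) = 0 := by
      rw [U.res]
      have := io_dvd σ h1 h2 (n := 1) (a := 2) (by rw [pow_one]; exact hσ)
      rwa [pow_one] at this
    rw [map_ofNat, map_ofNat] at h4
    exact h4
  have hPO : P = mp M (f.map (io σ)) := by
    rw [hP]
    unfold mp
    rw [Polynomial.map_map, Polynomial.map_map]
    rfl
  subst hPO
  have hdd : (f.map (io σ)).natDegree = 2 * g + 1 := by rw [hm.natDegree_map, hd]
  exact U.lc.main h2k (hm.map _) hdd h3 hI hdiv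

include σ in
/-- The consequence for the coordinate ring. -/
theorem glo_ring [CharZero M] (hσ : (2 : 𝓞 F) ∈ v.asIdeal) {f : (𝓞 F)[X]} (hR : RegAt v f)
    (hm : f.Monic) {g : ℕ} (hd : f.natDegree = 2 * g + 1)
    (hs : (f.map (algebraMap (𝓞 F) F)).Separable) {P : M[X]}
    (hP : P = (f.map (algebraMap (𝓞 F) F)).map (algebraMap F M))
    (hdiv : Pool.Agent.N874.Jac.UniquelyTwoDivisible P) :
    IsDomain (Pool.Agent.N874.Jac.CoordRing P M) ∧
    IsPrincipalIdealRing (Pool.Agent.N874.Jac.CoordRing P M) ∧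
    Subsingleton (Pool.Agent.N874.Jac.J P M) ∧ (1 ≤ g → ∀ x y : M, y ^ 2 ≠ P.eval x) := by
  have hPm : P.Monic := by rw [hP]; exact (hm.map _).map _
  have hPd : P.natDegree = 2 * g + 1 := by
    rw [hP, (hm.map _).natDegree_map, hm.natDegree_map, hd]
  have hPs : P.Separable := by rw [hP]; exact hs.map
  have hid : P.map (algebraMap M M) = P := Polynomial.map_id
  have hdiv' : ∀ c : CommRing.Pic (CR 2 (P.map (algebraMap M M))),
      ∃ d : CommRing.Pic (CR 2 (P.map (algebraMap M M))), d ^ 2 = c := fun c => hdiv.2 c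
  have hL : ∀ I : Ideal (QA M[X] (P.map (algebraMap M M))), I ≠ ⊥ →
      (∀ n : ℕ, ∃ J : Ideal (QA M[X] (P.map (algebraMap M M))), J ≠ ⊥ ∧ Eqv (J ^ 2 ^ n) I) →
      ∃ x, Ideal.span {x} = I := by
    intro I hI h
    exact glo σ hσ hR hm hd (hid.trans hP) hI h
  obtain ⟨k1, k2⟩ := principal_ring (P := P.map (algebraMap M M)) two_ne_zero
    (by rw [hid]; exact hPm) (by rw [hid]; exact hPs)
    (by rw [hid, hPd]; exact odd_two_mul_add_one g) hdiv' hL
  haveI := k1
  haveI := k2
  have k3 : IsDomain (CR 2 (P.map (algebraMap M M))) := inferInstance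
  refine ⟨k3, k2, ?_, ?_⟩
  · have h5 : Subsingleton (ClassGroup (CR 2 (P.map (algebraMap M M)))) := by
      have h6 := card_classGroup_eq_one (R := CR 2 (P.map (algebraMap M M)))
      exact (Fintype.card_le_one_iff_subsingleton.1 h6.le)
    exact (ClassGroup.equivPic (CR 2 (P.map (algebraMap M M)))).symm.toEquiv.subsingleton
  · intro hg x y
    have h7 := no_points (P := P.map (algebraMap M M)) (by rw [hid, hPd]; exact odd_two_mul_add_one g)
      (by rw [hid, hPd]; omega) k2 x y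
    rwa [hid] at h7

end glo

end Pool.Agent.H458.PD
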