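import Pool.Agent.H458.PD.Mov

/-!
# Good representatives of the ideal classes
-/

set_option autoImplicit false
set_option linter.all false

open Polynomial
open scoped Classical

namespace Pool.Agent.H458.PD

section

variable {O K k : Type} [CommRing O] [IsDomain O] [Field K] [Algebra O K] [Field k]
  {red : O →+* k} {π : O} (L : Lc O K k red π)

include L

theorem Lc.good [IsPrincipalIdealRing O] (h2 : (2 : k) = 0) {f : O[X]} (hfm : f.Monic) {g : ℕ}
    (hfd : f.natDegree = 2 * g + 1) (hR : Reg red π f) {I : Ideal (QA K[X] (mp K f))}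
    (hI : I ≠ ⊥) : ∃ A B D : O[X], B ^ 2 - A * D = f ∧ A.Monic ∧ IsCoprime A D ∧
      Eqv I (idl (mp K f) (mp K A) (mp K B)) := by
  have hfo : Odd f.natDegree := by rw [hfd]; exact odd_two_mul_add_one g
  haveI : IsDomain (QA K[X] (mp K f)) := isDomain (by
    unfold mp
    rwa [natDegree_map_eq_of_injective L.inj])
  obtain ⟨A0, B0, D0, h0, hE0⟩ := L.start hfo hI
  obtain ⟨X, Y, X', Y', hd, hu⟩ := L.move h2 hfm hfd h0
  obtain ⟨A1, hA1⟩ : ∃ A1, A1 = A0 * X ^ 2 + 2 * B0 * X * Y + D0 * Y ^ 2 := ⟨_, rfl⟩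
  obtain ⟨B1, hB1⟩ : ∃ B1, B1 = A0 * X * X' + B0 * (X * Y' + X' * Y) + D0 * Y * Y' := ⟨_, rfl⟩
  obtain ⟨D1, hD1⟩ : ∃ D1, D1 = A0 * X' ^ 2 + 2 * B0 * X' * Y' + D0 * Y' ^ 2 := ⟨_, rfl⟩
  have h1 : B1 ^ 2 - A1 * D1 = f := by
    rw [hA1, hB1, hD1, form_change hd, h0]
  have hE1 := L.eqv_change (K := K) (j := 0) hfo (A := A0) (B := B0) (D := D0) (by
    rw [h0, mul_zero, pow_zero, C_1, one_mul]) hd
  rw [dv_zero, dv_zero, ← hA1, ← hB1] at hE1
  rw [← hA1] at hu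
  obtain ⟨u, hu⟩ := hu
  obtain ⟨A2, hA2⟩ : ∃ A2 : O[X], A2 = C ((u⁻¹ : Oˣ) : O) * A1 := ⟨_, rfl⟩
  have hmon : A2.Monic := by
    rw [hA2, Monic, leadingCoeff_mul, leadingCoeff_C, ← hu, Units.inv_mul]
  have hA1' : A1 = C (u : O) * A2 := by
    rw [hA2, ← mul_assoc, ← C_mul, Units.mul_inv, C_1, one_mul]
  obtain ⟨D2, hD2⟩ : ∃ D2 : O[X], D2 = C (u : O) * D1 := ⟨_, rfl⟩
  have h3 : B1 ^ 2 - A2 * D2 = f := by
    rw [← h1, hD2, hA1']
    ring
  refine ⟨A2, B1, D2, h3, hmon, ?_, hE0.trans ?_⟩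
  · have hc := L.cop h2 hfm hfo hR h3
    obtain ⟨α, β, hαβ⟩ := hc
    obtain ⟨α', rfl⟩ := L.lift α
    obtain ⟨β', rfl⟩ := L.lift β
    have h4 := L.nak (I := Ideal.span {A2, D2}) (A := A2) (by rw [hmon.leadingCoeff]; exact isUnit_one)
      (Ideal.subset_span (by simp)) (P := α' * A2 + β' * D2) (by
        rw [Ideal.mem_span_pair]
        exact ⟨α', β', rfl⟩) (by
        rw [Polynomial.map_add, Polynomial.map_mul, Polynomial.map_mul]
        exact hαβ)
    rw [Ideal.eq_top_iff_one, Ideal.mem_span_pair] at h4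
    exact h4
  · have e : idl (mp K f) (mp K A1) (mp K B1) = idl (mp K f) (mp K A2) (mp K B1) := by
      rw [hA1']
      unfold mp
      rw [Polynomial.map_mul, map_C, idl_scale]
      intro h5
      have := L.inj (h5.trans (_root_.map_zero _).symm)
      exact u.ne_zero this
    rw [← e]
    exact hE1

end

end Pool.Agent.H458.PD
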