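import Pool.Agent.H458.PD.Stp

/-!
# Approximate generators of bounded degree
-/

set_option autoImplicit false
set_option linter.all false

open Polynomial
open scoped Classical

namespace Pool.Agent.H458.PD

section

variable {R : Type} [CommRing R] {f : R}

theorem JJ {A B D A' B' D' : R} (h : B ^ 2 - A * D = f) (hc : IsCoprime A D)
    (h' : B' ^ 2 - A' * D' = f) (hc' : IsCoprime A' D') (m : ℕ) :
    (idl f A' B' ^ m * idl' f A B) * (idl f A' B' ^ m * idl' f A B).map (cj f) =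
      Ideal.span {xx f (A' ^ m * A)} := by
  rw [Ideal.map_mul, Ideal.map_pow, cj_idl, cj_idl', xx_mul, xx_pow]
  calc (idl f A' B' ^ m * idl' f A B) * (idl' f A' B' ^ m * idl f A B) =
      (idl f A' B' * idl' f A' B') ^ m * (idl f A B * idl' f A B) := by ring
    _ = _ := by
      rw [idl_mul h hc, idl_mul h' hc', Ideal.span_singleton_pow,
        Ideal.span_singleton_mul_span_singleton]

theorem nm_xx (a : R) (w : QA R f) : nm (xx f a * w) = a ^ 2 * nm w := by
  simp only [nm, xx, QuadraticAlgebra.re_mul, QuadraticAlgebra.im_mul]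
  ring

theorem two_pow_eq (t : ℕ) : (2 : QA R f) ^ t = xx f (2 ^ t) := by
  rw [two_eq, ← xx_pow]

end

section

variable {S : Type} [CommRing S] [IsDomain S]

theorem div_cong {V x a b : S[X]} (hV : V.Monic) (t : ℕ) (h : x = V * a + 2 ^ t * b) :
    x /ₘ V = a + 2 ^ t * (b /ₘ V) ∧ x %ₘ V = 2 ^ t * (b %ₘ V) := by
  apply div_modByMonic_unique _ _ hV
  constructor
  · rw [h]
    conv_rhs => rw [← modByMonic_add_div b V]
    ring
  · have e : (2 : S[X]) ^ t = C (2 ^ t) := by
      rw [_root_.map_pow, C_ofNat]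
    rw [e]
    refine lt_of_le_of_lt ?_ (degree_modByMonic_lt b hV)
    refine (degree_mul_le _ _).trans ?_
    calc (C (2 ^ t : S)).degree + (b %ₘ V).degree ≤ 0 + (b %ₘ V).degree := by
          gcongr
          exact degree_C_le
      _ = _ := zero_add _

end

section

variable {O K k : Type} [CommRing O] [IsDomain O] [Field K] [Algebra O K] [Field k]
  {red : O →+* k} {π : O} (L : Lc O K k red π)

include L

theorem Lc.step (h2 : (2 : k) = 0) {f : O[X]} (hfm : f.Monic) {g : ℕ}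
    (hfd : f.natDegree = 2 * g + 1) {A B D : O[X]} (h : B ^ 2 - A * D = f) (hA : A.Monic)
    (hc : IsCoprime A D) {A' B' D' : O[X]} (h' : B' ^ 2 - A' * D' = f) (hA' : A'.Monic)
    (hc' : IsCoprime A' D') (s : ℕ)
    (hE : Eqv (idl (mp K f) (mp K A') (mp K B') ^ 2 ^ (s + 1)) (idl (mp K f) (mp K A) (mp K B))) :
    ∃ p q : O[X], 2 * p.natDegree ≤ A.natDegree ∧
      (q ≠ 0 → 2 * q.natDegree + 2 * g + 1 ≤ A.natDegree) ∧
      (∃ z, (p - q * B) %ₘ A = 2 ^ (s + 1) * z) ∧ ¬ (p.map red = 0 ∧ q.map red = 0) := by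
  have hfo : Odd f.natDegree := by rw [hfd]; exact odd_two_mul_add_one g
  haveI : IsDomain (QA K[X] (mp K f)) := isDomain (by
    unfold mp
    rwa [natDegree_map_eq_of_injective L.inj])
  have hmap : ∀ {A B D : O[X]}, B ^ 2 - A * D = f →
      mp K B ^ 2 - mp K A * mp K D = mp K f := by
    intro A B D h
    rw [← h]
    simp [mp]
  have hcop : ∀ {A D : O[X]}, IsCoprime A D → IsCoprime (mp K A) (mp K D) := by
    intro A D h
    exact h.map (mapRingHom (algebraMap O K))
  obtain ⟨m, hm⟩ : ∃ m, m = 2 ^ (s + 1) := ⟨_, rfl⟩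
  rw [← hm] at hE
  have hJ := JJ h hc h' hc' m
  have hJK := JJ (hmap h) (hcop hc) (hmap h') (hcop hc') m
  obtain ⟨J, hJdef⟩ : ∃ J, J = idl f A' B' ^ m * idl' f A B := ⟨_, rfl⟩
  obtain ⟨JK, hJKdef⟩ : ∃ JK, JK = idl (mp K f) (mp K A') (mp K B') ^ m *
      idl' (mp K f) (mp K A) (mp K B) := ⟨_, rfl⟩
  rw [← hJdef] at hJ
  rw [← hJKdef] at hJK
  have hJmap : J.map (Ph K f) = JK := by
    rw [hJdef, hJKdef, Ideal.map_mul, Ideal.map_pow, Ph_idl, Ph_idl']
  obtain ⟨u, v, hu, hv, huv⟩ := hE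
  have hAK : mp K A ≠ 0 := (hA.map _).ne_zero
  have hUV : Ideal.span {u} * JK = Ideal.span {v * xx (mp K f) (mp K A)} := by
    rw [hJKdef, ← mul_assoc, huv, mul_assoc, idl_mul (hmap h) (hcop hc),
      Ideal.span_singleton_mul_span_singleton]
  obtain ⟨γ, hγJ, hγ⟩ := Ideal.mem_span_singleton_mul.1
    (hUV ▸ Ideal.mem_span_singleton_self (v * xx (mp K f) (mp K A)))
  have hγspan : Ideal.span {γ} = JK := by
    apply (Ideal.span_singleton_mul_right_inj hu).1
    rw [hUV, ← hγ, Ideal.span_singleton_mul_span_singleton]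
  have hγ0 : γ ≠ 0 := by
    rintro rfl
    rw [mul_zero] at hγ
    exact mul_ne_zero hv (by rwa [Ne, xx_eq_zero]) hγ.symm
  obtain ⟨c, γ', hc0, hγ', hprim⟩ := L.prim hγ0
  have hγ'J : γ' ∈ J := by
    apply L.sat hfo ((hA'.pow m).mul hA) hJ
    rw [hJmap, hγ']
    exact Ideal.mul_mem_left _ _ hγJ
  -- the degree of the norm
  have hdeg : (nm γ').natDegree ≤ m * A'.natDegree + A.natDegree := by
    have h3 := nm_dvd hγspan hJK
    have h4 : nm (Ph K f γ') = mp K (nm γ') := by
      simp [nm, Ph, mp]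
    have h5 : nm (Ph K f γ') = C c ^ 2 * nm γ := by rw [hγ', nm_xx]
    have h6 : (nm γ').natDegree = (mp K (nm γ')).natDegree :=
      (natDegree_map_eq_of_injective L.inj _).symm
    have h7 : (C c ^ 2 * nm γ).natDegree = (nm γ).natDegree := by
      rw [← C_pow, natDegree_C_mul (pow_ne_zero _ hc0)]
    have h8 : (mp K A' ^ m * mp K A).natDegree = m * A'.natDegree + A.natDegree := by
      unfold mp
      rw [((hA'.map _).pow m).natDegree_mul (hA.map _), (hA'.map _).natDegree_pow,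
        hA'.natDegree_map, hA.natDegree_map]
    rw [h6, ← h4, h5, h7, ← h8]
    exact natDegree_le_of_dvd h3 (mul_ne_zero (pow_ne_zero _ (hA'.map _).ne_zero) hAK)
  obtain ⟨hre, him⟩ := parity (g := g) hfd (p := γ'.re) (y := γ'.im) hdeg
  rw [hJdef, hm] at hγ'J
  obtain ⟨e, he, c0, hcong⟩ := elem_cong h' hc' s _ hγ'J
  rw [mem_idl' h] at he
  obtain ⟨V, hV⟩ : ∃ V, V = A' ^ 2 ^ s := ⟨_, rfl⟩
  have hVm : V.Monic := by rw [hV]; exact hA'.pow _
  have hVd : V.natDegree = 2 ^ s * A'.natDegree := by rw [hV, hA'.natDegree_pow]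
  have e1 : γ'.re = V * e.re + 2 ^ (s + 1) * c0.re := by
    rw [hcong, two_pow_eq, ← hV]
    simp only [xx, QuadraticAlgebra.re_add, QuadraticAlgebra.re_mul]
    ring
  have e2 : γ'.im = V * e.im + 2 ^ (s + 1) * c0.im := by
    rw [hcong, two_pow_eq, ← hV]
    simp only [xx, QuadraticAlgebra.im_add, QuadraticAlgebra.im_mul]
    ring
  have d1 := (div_cong hVm (s + 1) e1).1
  have d2 := (div_cong hVm (s + 1) e2).1
  have hm2 : m * A'.natDegree = 2 * V.natDegree := by
    rw [hVd, hm, pow_succ]; ring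
  refine ⟨γ'.re /ₘ V, γ'.im /ₘ V, ?_, ?_, ?_, ?_⟩
  · rw [natDegree_divByMonic _ hVm]
    omega
  · intro hq
    have h3 : γ'.im ≠ 0 := by
      intro h0
      apply hq
      rw [h0, zero_divByMonic]
    have h4 : V.natDegree ≤ γ'.im.natDegree := by
      by_contra hlt
      push Not at hlt
      apply hq
      rw [divByMonic_eq_zero_iff hVm]
      exact degree_lt_degree hlt
    rw [natDegree_divByMonic _ hVm]
    have := him h3
    omega
  · obtain ⟨w, hw⟩ := he
    refine ⟨(c0.re /ₘ V - c0.im /ₘ V * B) %ₘ A, (div_cong hA (s + 1) (a := w) ?_).2⟩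
    rw [d1, d2]
    linear_combination hw
  · rintro ⟨h3, h4⟩
    apply hprim
    have h2X : (2 : k[X]) = 0 := by
      rw [← C_ofNat, h2, C_0]
    have h5 : e.re.map red = 0 := by
      rw [d1] at h3
      simpa [h2X] using h3
    have h6 : e.im.map red = 0 := by
      rw [d2] at h4
      simpa [h2X] using h4
    rw [e1, e2]
    constructor
    · simp [h5, h2X]
    · simp [h6, h2X]

end

end Pool.Agent.H458.PD
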