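import Pool.Agent.H458.PD.Reg

/-!
# Linear algebra over a discrete valuation ring
-/

set_option autoImplicit false
set_option linter.all false

open Polynomial

namespace Pool.Agent.H458.PD

section

variable {O K k : Type} [CommRing O] [IsDomain O] [Field K] [Algebra O K] [Field k]
  {red : O →+* k} {π : O} (L : Lc O K k red π)

include L

/-- The kernel of a linear map has a basis which is independent modulo `π`. -/
theorem Lc.ker_basis [IsPrincipalIdealRing O] {m l : ℕ} (Φ : (Fin m → O) →ₗ[O] (Fin l → O)) :
    ∃ (ν : ℕ) (b : Fin ν → Fin m → O), m ≤ ν + l ∧ (∀ i, Φ (b i) = 0) ∧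
      LinearIndependent k fun i j => red (b i j) := by
  have hfree : Module.Free O (LinearMap.ker Φ) := inferInstance
  have hfin : Module.Finite O (LinearMap.ker Φ) := inferInstance
  have hrk := Submodule.finrank_quotient_add_finrank (LinearMap.ker Φ)
  rw [(LinearMap.quotKerEquivRange Φ).finrank_eq] at hrk
  have hle : Module.finrank O (LinearMap.range Φ) ≤ l := by
    have := Submodule.finrank_le (LinearMap.range Φ)
    simpa using this
  rw [Module.finrank_fin_fun] at hrk
  set B := Module.finBasis O (LinearMap.ker Φ) with hB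
  refine ⟨_, fun i => (B i : Fin m → O), by omega, fun i => (B i).2, ?_⟩
  rw [Fintype.linearIndependent_iff]
  intro c hc
  choose c' hc' using fun i => L.surj (c i)
  have h1 : ∀ j, π ∣ ∑ i, c' i * (B i : Fin m → O) j := by
    intro j
    rw [← L.ker, map_sum]
    have h2 := congrFun hc j
    simp only [Finset.sum_apply, Pi.smul_apply, smul_eq_mul, Pi.zero_apply] at h2
    rw [← h2]
    exact Finset.sum_congr rfl fun i _ => by rw [map_mul, hc']
  choose w hw using h1
  have h2 : Φ w = 0 := by
    have h3 : π • w = ∑ i, c' i • (B i : Fin m → O) := by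
      funext j
      simp only [Pi.smul_apply, smul_eq_mul, Finset.sum_apply]
      exact (hw j).symm
    have h4 : π • Φ w = 0 := by
      rw [← map_smul, h3, map_sum]
      refine Finset.sum_eq_zero fun i _ => ?_
      rw [map_smul, LinearMap.mem_ker.1 (B i).2, smul_zero]
    exact (smul_eq_zero.1 h4).resolve_left L.ne
  have h3 : ∑ i, c' i • B i = π • (⟨w, h2⟩ : LinearMap.ker Φ) := by
    apply Subtype.ext
    simp only [Submodule.coe_sum, Submodule.coe_smul]
    funext j
    simp only [Pi.smul_apply, smul_eq_mul, Finset.sum_apply]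
    exact hw j
  intro i
  have h4 := congrArg (fun x => B.repr x i) h3
  simp only [map_sum, map_smul, Finsupp.smul_apply, Finsupp.coe_finset_sum, Finset.sum_apply,
    Module.Basis.repr_self, smul_eq_mul, Finsupp.single_apply, mul_ite, mul_one, mul_zero,
    Finset.sum_ite_eq', Finset.mem_univ, if_true] at h4
  rw [← hc', h4, L.ker]
  exact dvd_mul_right _ _

/-- Nakayama's lemma. -/
theorem Lc.nak {I : Ideal O[X]} {A : O[X]} (hA : IsUnit A.leadingCoeff) (hAI : A ∈ I)
    {P : O[X]} (hP : P ∈ I) (h1 : P.map red = 1) : I = ⊤ := by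
  obtain ⟨u, hu⟩ := hA
  obtain ⟨A1, hA1⟩ : ∃ A1 : O[X], A1 = C ((u⁻¹ : Oˣ) : O) * A := ⟨_, rfl⟩
  have hmon : A1.Monic := by
    rw [hA1, Monic, leadingCoeff_mul, leadingCoeff_C, ← hu, Units.inv_mul]
  have hA1I : A1 ∈ I := by
    rw [hA1]
    exact I.mul_mem_left _ hAI
  have hfin : Module.Finite O (O[X] ⧸ I) := by
    haveI := hmon.finite_quotient
    have hle : Ideal.span {A1} ≤ I := (Ideal.span_singleton_le_iff_mem _).2 hA1I
    exact Module.Finite.of_surjective (Ideal.Quotient.factorₐ O hle).toLinearMap
      (Ideal.Quotient.factor_surjective hle)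
  obtain ⟨Q, hQ⟩ := (L.map_zero (P := P - 1)).1 (by
    rw [Polynomial.map_sub, h1, Polynomial.map_one, sub_self])
  have hbot : (⊤ : Submodule O (O[X] ⧸ I)) = ⊥ := by
    apply Submodule.eq_bot_of_le_smul_of_le_jacobson_bot (Ideal.span {π}) ⊤ hfin.fg_top
    · intro x _
      obtain ⟨z, rfl⟩ := Ideal.Quotient.mk_surjective x
      have h2 : Ideal.Quotient.mk I z = π • Ideal.Quotient.mk I (-(z * Q)) := by
        have h3 : Ideal.Quotient.mk I (z * P) = 0 :=
          Ideal.Quotient.eq_zero_iff_mem.2 (I.mul_mem_left _ hP)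
        have h4 : z = z * P + C π * (-(z * Q)) := by
          linear_combination (-z) * hQ
        have h5 : π • Ideal.Quotient.mk I (-(z * Q)) = Ideal.Quotient.mk I (C π * (-(z * Q))) := by
          rw [← Polynomial.smul_eq_C_mul]
          rfl
        rw [h5]
        conv_lhs => rw [h4]
        rw [map_add, h3, zero_add]
      rw [h2]
      exact Submodule.smul_mem_smul (Ideal.mem_span_singleton_self π) Submodule.mem_top
    · rw [Ideal.span_singleton_le_iff_mem, Ideal.mem_jacobson_bot]
      intro y
      apply L.unit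
      rw [map_add, map_mul, (L.ker π).2 (dvd_refl _), zero_mul, zero_add, map_one]
      exact one_ne_zero
  rw [Ideal.eq_top_iff_one, ← Ideal.Quotient.eq_zero_iff_mem]
  have : Ideal.Quotient.mk I 1 ∈ (⊤ : Submodule O (O[X] ⧸ I)) := Submodule.mem_top
  rw [hbot] at this
  exact (Submodule.mem_bot O).1 this

end

end Pool.Agent.H458.PD
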