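import Pool.Agent.H458.PD.Key

/-!
# Infinitely 2-divisible ideal classes are trivial
-/

set_option autoImplicit false
set_option linter.all false

open Polynomial
open scoped Classical

namespace Pool.Agent.H458.PD

section

variable {O K k : Type} [CommRing O] [IsDomain O] [Field K] [Algebra O K] [Field k]
  {red : O →+* k} {π : O} (L : Lc O K k red π)

theorem Tl_append {S : Type} [CommRing S] {n1 n2 : ℕ} (v : Fin n1 → S) (w : Fin n2 → S) :
    Tl S n1 n2 (Fin.append v w) = ofFn n1 v := by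
  unfold Tl
  rw [LinearMap.comp_apply]
  congr 1
  funext i
  simp [LinearMap.funLeft_apply]

theorem Yl_append {S : Type} [CommRing S] {n1 n2 : ℕ} (v : Fin n1 → S) (w : Fin n2 → S) :
    Yl S n1 n2 (Fin.append v w) = ofFn n2 w := by
  unfold Yl
  rw [LinearMap.comp_apply]
  congr 1
  funext i
  simp [LinearMap.funLeft_apply]

include L

theorem Lc.exists_ker (h2 : (2 : k) = 0) {A B : O[X]} (hA : A.Monic) (g : ℕ)
    (hyp : ∀ s : ℕ, ∃ p q : O[X], 2 * p.natDegree ≤ A.natDegree ∧
      (q ≠ 0 → 2 * q.natDegree + 2 * g + 1 ≤ A.natDegree) ∧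
      (∃ z, (p - q * B) %ₘ A = 2 ^ (s + 1) * z) ∧ ¬ (p.map red = 0 ∧ q.map red = 0)) :
    ∃ p q : K[X], 2 * p.natDegree ≤ A.natDegree ∧
      (q ≠ 0 → 2 * q.natDegree + 2 * g + 1 ≤ A.natDegree) ∧
      mp K A ∣ p - q * mp K B ∧ ¬ (p = 0 ∧ q = 0) := by
  obtain ⟨d, hd⟩ : ∃ d, d = A.natDegree := ⟨_, rfl⟩
  obtain ⟨n1, hn1⟩ : ∃ n1, n1 = d / 2 + 1 := ⟨_, rfl⟩
  obtain ⟨n2, hn2⟩ : ∃ n2, n2 = (d + 1 - 2 * g) / 2 := ⟨_, rfl⟩
  have hAK : (mp K A).Monic := hA.map _
  have hdK : (mp K A).natDegree = d := by rw [hd]; exact hA.natDegree_map _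
  obtain ⟨ρ, hρ⟩ : ∃ ρ : (Fin (n1 + n2) → K) →ₗ[K] (Fin d → K), ∀ v i,
      ρ v i = ((Tl K n1 n2 v - Yl K n1 n2 v * mp K B) %ₘ mp K A).coeff i := by
    refine ⟨(toFn d).comp ((modByMonicHom (mp K A)).comp
      (Tl K n1 n2 - (LinearMap.mulRight K (mp K B)).comp (Yl K n1 n2))), fun v i => ?_⟩
    simp [toFn, modByMonicHom_apply]
  by_cases hker : LinearMap.ker ρ = ⊥
  · exfalso
    obtain ⟨lam, hlam⟩ := LinearMap.exists_leftInverse_of_injective ρ hker
    have hden : ∃ N : ℕ, ∀ i j, ∃ x : O, lam (Pi.single j 1) i * algebraMap O K π ^ N =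
        algebraMap O K x := by
      choose N x hx using fun (ij : Fin (n1 + n2) × Fin d) => L.den (lam (Pi.single ij.2 1) ij.1)
      refine ⟨∑ ij, N ij, fun i j => ?_⟩
      obtain ⟨r, hr⟩ := Nat.exists_eq_add_of_le
        (Finset.single_le_sum (f := N) (fun _ _ => Nat.zero_le _) (Finset.mem_univ (i, j)))
      refine ⟨x (i, j) * π ^ r, ?_⟩
      rw [hr, pow_add, ← mul_assoc, hx (i, j), _root_.map_mul, _root_.map_pow]
    obtain ⟨N, hN⟩ := hden
    choose l hl using hN
    obtain ⟨p, q, hp, hq, ⟨z, hz⟩, hne⟩ := hyp N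
    rw [← hd] at hp hq
    obtain ⟨t0, ht0⟩ : π ∣ (2 : O) := by
      rw [← L.ker, map_ofNat, h2]
    have hpv : ofFn n1 (toFn n1 p) = p := ofFn_comp_toFn_eq_id_of_natDegree_lt (by omega)
    have hqv : ofFn n2 (toFn n2 q) = q := by
      by_cases h0 : q = 0
      · rw [h0]; simp
      · have := hq h0
        exact ofFn_comp_toFn_eq_id_of_natDegree_lt (by omega)
    obtain ⟨v, hv⟩ : ∃ v : Fin (n1 + n2) → O, v = Fin.append (toFn n1 p) (toFn n2 q) := ⟨_, rfl⟩
    have hTv : Tl O n1 n2 v = p := by rw [hv, Tl_append, hpv]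
    have hYv : Yl O n1 n2 v = q := by rw [hv, Yl_append, hqv]
    have hρv : ∀ j : Fin d, ρ (fun i => algebraMap O K (v i)) j =
        algebraMap O K (π ^ (N + 1) * (t0 ^ (N + 1) * z.coeff j)) := by
      intro j
      rw [hρ, ← Tl_map (algebraMap O K), ← Yl_map (algebraMap O K), hTv, hYv]
      have e1 : p.map (algebraMap O K) - q.map (algebraMap O K) * mp K B = (p - q * B).map
          (algebraMap O K) := by simp [mp]
      rw [e1]
      unfold mp
      rw [← Polynomial.map_modByMonic _ hA, coeff_map, hz]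
      congr 1
      have e2 : (2 : O[X]) ^ (N + 1) = C ((π * t0) ^ (N + 1)) := by
        rw [← ht0, _root_.map_pow, C_ofNat]
      rw [e2, coeff_C_mul, mul_pow, mul_assoc]
    have hvz : ∀ i, red (v i) = 0 := by
      intro i
      rw [L.ker]
      refine ⟨∑ j : Fin d, (t0 ^ (N + 1) * z.coeff (j : ℕ)) * l i j, ?_⟩
      apply L.inj
      have e3 : algebraMap O K (v i) = lam (ρ fun i => algebraMap O K (v i)) i := by
        have := LinearMap.congr_fun hlam (fun i => algebraMap O K (v i))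
        rw [LinearMap.comp_apply, LinearMap.id_apply] at this
        rw [this]
      rw [e3]
      have e4 : ρ (fun i => algebraMap O K (v i)) = ∑ j, ρ (fun i => algebraMap O K (v i)) j •
          (Pi.single j (1 : K) : Fin d → K) := by
        funext j
        simp [Finset.sum_apply, Pi.single_apply]
      rw [e4, map_sum, Finset.sum_apply, _root_.map_mul, map_sum, Finset.mul_sum]
      refine Finset.sum_congr rfl fun j _ => ?_
      rw [map_smul, Pi.smul_apply, smul_eq_mul, hρv, _root_.map_mul (algebraMap O K) _ (l i j), ← hl,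
        _root_.map_mul, _root_.map_pow, pow_succ]
      ring
    apply hne
    rw [← hTv, ← hYv, Tl_map, Yl_map]
    have e5 : (fun i => red (v i)) = 0 := funext hvz
    rw [e5, _root_.map_zero, _root_.map_zero]
    exact ⟨rfl, rfl⟩
  · obtain ⟨v, hv, hv0⟩ := Submodule.exists_mem_ne_zero_of_ne_bot hker
    rw [LinearMap.mem_ker] at hv
    refine ⟨Tl K n1 n2 v, Yl K n1 n2 v, ?_, ?_, ?_, ?_⟩
    · have h1 := Tl_deg K n1 n2 v
      by_cases h0 : Tl K n1 n2 v = 0
      · rw [h0, natDegree_zero]; omega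
      · have := (natDegree_lt_iff_degree_lt h0).2 h1
        omega
    · intro h0
      have h1 := Yl_deg K n1 n2 v
      have := (natDegree_lt_iff_degree_lt h0).2 h1
      omega
    · rw [← (modByMonic_eq_zero_iff_dvd hAK)]
      ext i
      by_cases hi : i < d
      · have := congrFun hv ⟨i, hi⟩
        rw [hρ] at this
        simpa using this
      · rw [coeff_zero]
        apply coeff_eq_zero_of_degree_lt
        refine lt_of_lt_of_le (degree_modByMonic_lt _ hAK) ?_
        rw [degree_eq_natDegree hAK.ne_zero, hdK]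
        exact_mod_cast not_lt.1 hi
    · rintro ⟨h3, h4⟩
      apply hv0
      have h5 : (Tl K n1 n2).prod (Yl K n1 n2) v = 0 := by
        rw [LinearMap.prod_apply]
        exact Prod.ext h3 h4
      have h6 := TY_inj K n1 n2
      rw [LinearMap.ker_eq_bot'] at h6
      exact h6 v h5

end

section

variable {K : Type} [Field K] {f : K[X]}

/-- An ideal which contains an element of small norm is principal. -/
theorem principal_of {g : ℕ} (hfd : f.natDegree = 2 * g + 1) {A B D : K[X]}
    (h : B ^ 2 - A * D = f) (hA : A.Monic) (hc : IsCoprime A D) {p q : K[X]}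
    (hp : 2 * p.natDegree ≤ A.natDegree) (hq : q ≠ 0 → 2 * q.natDegree + 2 * g + 1 ≤ A.natDegree)
    (hd : A ∣ p - q * B) (hne : ¬ (p = 0 ∧ q = 0)) : ∃ e : QA K[X] f, Ideal.span {e} = idl f A B := by
  have hfo : Odd f.natDegree := by rw [hfd]; exact odd_two_mul_add_one g
  haveI := isDomain hfo
  obtain ⟨e, he⟩ : ∃ e : QA K[X] f, e = ⟨p, q⟩ := ⟨_, rfl⟩
  have he0 : e ≠ 0 := by
    intro h0
    apply hne
    rw [he] at h0
    exact ⟨congrArg QuadraticAlgebra.re h0, congrArg QuadraticAlgebra.im h0⟩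
  have heI : e ∈ idl' f A B := by
    rw [mem_idl' h, he]
    exact hd
  have hcI : cj f e ∈ idl f A B := by
    rw [← cj_idl']
    exact Ideal.mem_map_of_mem _ heI
  have hmul := idl_mul h hc
  obtain ⟨w, hw⟩ : A ∣ nm e := by
    rw [← xx_dvd (f := f), ← mul_cj, mul_comm e, ← Ideal.mem_span_singleton, ← hmul]
    exact Ideal.mul_mem_mul hcI heI
  have hnm0 : nm e ≠ 0 := by
    intro h0
    have h1 := mul_cj e
    rw [h0, xx_eq_zero.2 rfl, mul_eq_zero, or_iff_right he0] at h1
    apply he0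
    have h2 := congrArg QuadraticAlgebra.re h1
    have h3 := congrArg QuadraticAlgebra.im h1
    apply QuadraticAlgebra.ext
    · exact h2
    · exact neg_eq_zero.1 h3
  have hdeg : (nm e).natDegree ≤ A.natDegree := by
    rw [he]
    unfold nm
    simp only
    refine (natDegree_sub_le _ _).trans (max_le ?_ ?_)
    · rw [natDegree_pow]; exact hp
    · by_cases h0 : q = 0
      · rw [h0]; simp
      · have := hq h0
        refine natDegree_mul_le.trans ?_
        rw [natDegree_pow, hfd]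
        omega
  have hw0 : w ≠ 0 := by
    rintro rfl
    rw [mul_zero] at hw
    exact hnm0 hw
  have hwd : w.natDegree = 0 := by
    have h1 := congrArg natDegree hw
    rw [natDegree_mul hA.ne_zero hw0] at h1
    omega
  obtain ⟨c, rfl⟩ := natDegree_eq_zero.1 hwd
  have hc0 : c ≠ 0 := by
    rintro rfl
    exact hw0 C_0
  refine ⟨cj f e, le_antisymm ((Ideal.span_singleton_le_iff_mem _).2 hcI) ?_⟩
  intro x hx
  have h1 : x * e ∈ Ideal.span {xx f A} := by
    rw [← hmul]
    exact Ideal.mul_mem_mul hx heI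
  obtain ⟨z, hz⟩ := Ideal.mem_span_singleton.1 h1
  rw [Ideal.mem_span_singleton]
  refine ⟨xx f (C c⁻¹) * z, ?_⟩
  have hxA : xx f A ≠ 0 := by
    rw [Ne, xx_eq_zero]
    exact hA.ne_zero
  apply mul_left_cancel₀ hxA
  have h2 : xx f (C c) * xx f (C c⁻¹) = 1 := by
    rw [← xx_mul, ← C_mul, mul_inv_cancel₀ hc0, C_1, xx_one]
  have h3 : e * cj f e = xx f A * xx f (C c) := by
    rw [mul_cj, hw, xx_mul]
  calc xx f A * x = (xx f A * xx f (C c)) * xx f (C c⁻¹) * x := by
        rw [mul_assoc (xx f A), h2, mul_one]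
    _ = (e * cj f e) * xx f (C c⁻¹) * x := by rw [h3]
    _ = (x * e) * (cj f e * xx f (C c⁻¹)) := by ring
    _ = xx f A * (cj f e * (xx f (C c⁻¹) * z)) := by rw [hz]; ring

theorem principal_eqv {R : Type} [CommRing R] [IsDomain R] {I J : Ideal R} (h : Eqv I J) {e : R}
    (he : Ideal.span {e} = J) : ∃ x, Ideal.span {x} = I := by
  obtain ⟨a, b, ha, hb, h⟩ := h
  rw [← he, Ideal.span_singleton_mul_span_singleton] at h
  obtain ⟨x, hx, hx2⟩ := Ideal.mem_span_singleton_mul.1
    (h ▸ Ideal.mem_span_singleton_self (b * e))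
  refine ⟨x, (Ideal.span_singleton_mul_right_inj ha).1 ?_⟩
  rw [h, ← hx2, Ideal.span_singleton_mul_span_singleton]

end

section

variable {O K k : Type} [CommRing O] [IsDomain O] [Field K] [Algebra O K] [Field k]
  {red : O →+* k} {π : O} (L : Lc O K k red π)

include L

/-- **The local theorem.** Let `O` be a discrete valuation ring of residue characteristic two with
uniformizer `π` and `f` a monic polynomial of odd degree over `O` which is of the form
`E ^ 2 + x G ^ 2 + π r` with `r` and `G` coprime modulo `π`. Then an infinitely 2-divisible ideal class of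
`K[x, y] / (y ^ 2 - f)` is trivial. -/
theorem Lc.main [IsPrincipalIdealRing O] (h2 : (2 : k) = 0) {f : O[X]} (hfm : f.Monic) {g : ℕ}
    (hfd : f.natDegree = 2 * g + 1) (hR : Reg red π f) {I : Ideal (QA K[X] (mp K f))}
    (hI : I ≠ ⊥) (hdiv : ∀ n : ℕ, ∃ J : Ideal (QA K[X] (mp K f)), J ≠ ⊥ ∧ Eqv (J ^ 2 ^ n) I) :
    ∃ x, Ideal.span {x} = I := by
  have hfo : Odd f.natDegree := by rw [hfd]; exact odd_two_mul_add_one g
  have hfK : (mp K f).natDegree = 2 * g + 1 := by
    unfold mp
    rw [natDegree_map_eq_of_injective L.inj, hfd]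
  haveI : IsDomain (QA K[X] (mp K f)) := isDomain (by rw [hfK]; exact odd_two_mul_add_one g)
  obtain ⟨A, B, D, h, hA, hc, hE⟩ := L.good h2 hfm hfd hR hI
  obtain ⟨p, q, h3, h4, h5, h6⟩ := L.exists_ker h2 (A := A) (B := B) hA g (fun s => by
    obtain ⟨J, hJ, hJE⟩ := hdiv (s + 1)
    obtain ⟨A', B', D', h', hA', hc', hE'⟩ := L.good h2 hfm hfd hR hJ
    exact L.step h2 hfm hfd h hA hc h' hA' hc' s ((hE'.symm.pow _).trans (hJE.trans hE)))
  have hmap : mp K B ^ 2 - mp K A * mp K D = mp K f := by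
    rw [← h]
    simp [mp]
  have hdA : (mp K A).natDegree = A.natDegree := hA.natDegree_map _
  obtain ⟨e, he⟩ := principal_of hfK hmap (hA.map _) (hc.map (mapRingHom (algebraMap O K)))
    (by rw [hdA]; exact h3) (by rw [hdA]; exact h4) h5 h6
  exact principal_eqv hE he

end

end Pool.Agent.H458.PD
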