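import Pool.Agent.H458.PD.Alg

/-!
# Integral binary forms of discriminant `f`

`O` is a discrete valuation ring with uniformizer `π`, fraction field `K` and residue field `k`, and
`f` is a polynomial over `O` of odd degree. Every ideal class of `K[x, y] / (y ^ 2 - f)` contains an ideal
`(A, B - y)` where `A`, `B` and `C = (B ^ 2 - f) / A` are polynomials over `O`.
-/

set_option autoImplicit false
set_option linter.all false

open Polynomial

namespace Pool.Agent.H458.PD

/-- `O` is a discrete valuation ring with fraction field `K`, uniformizer `π` and residue field `k`. -/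
structure Lc (O K k : Type) [CommRing O] [IsDomain O] [Field K] [Algebra O K] [Field k]
    (red : O →+* k) (π : O) : Prop where
  inj : Function.Injective (algebraMap O K)
  surj : Function.Surjective red
  ker : ∀ x, red x = 0 ↔ π ∣ x
  unit : ∀ x, red x ≠ 0 → IsUnit x
  ne : π ≠ 0
  den : ∀ z : K, ∃ (n : ℕ) (x : O), z * algebraMap O K π ^ n = algebraMap O K x
  dvr : ∀ x : O, x ≠ 0 → ∃ n : ℕ, ¬ π ^ n ∣ x

section

variable {O K k : Type} [CommRing O] [IsDomain O] [Field K] [Algebra O K] [Field k]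
  {red : O →+* k} {π : O} (L : Lc O K k red π)

include L

theorem Lc.lift (p : k[X]) : ∃ P : O[X], P.map red = p :=
  Polynomial.map_surjective red L.surj p

theorem Lc.map_zero {P : O[X]} : P.map red = 0 ↔ ∃ Q : O[X], P = C π * Q := by
  constructor
  · intro h
    have h1 : ∀ n, π ∣ P.coeff n := by
      intro n
      rw [← L.ker, ← coeff_map, h, coeff_zero]
    obtain ⟨Q, hQ⟩ := (C_dvd_iff_dvd_coeff π P).2 h1
    exact ⟨Q, hQ⟩
  · rintro ⟨Q, rfl⟩
    rw [Polynomial.map_mul, map_C, (L.ker π).2 (dvd_refl _), C_0, zero_mul]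

theorem Lc.Cne : (C π : O[X]) ≠ 0 := by
  rw [Ne, C_eq_zero]
  exact L.ne

/-- Lifting a row to a matrix of determinant one. -/
theorem Lc.sl2 (u w : k[X]) : IsCoprime w u → ∃ X Y X' Y' : O[X], X * Y' - X' * Y = 1 ∧
    X.map red = w ∧ Y.map red = u := by
  refine EuclideanDomain.GCD.induction (P := fun u w => IsCoprime w u → ∃ X Y X' Y' : O[X],
    X * Y' - X' * Y = 1 ∧ X.map red = w ∧ Y.map red = u) u w ?_ ?_
  · intro w hw
    rw [isCoprime_zero_right] at hw
    obtain ⟨c, hc, rfl⟩ := Polynomial.isUnit_iff.1 hw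
    obtain ⟨c0, rfl⟩ := L.surj c
    obtain ⟨v, hv⟩ := L.unit c0 hc.ne_zero
    refine ⟨C c0, 0, 0, C ((v⁻¹ : Oˣ) : O), ?_, by simp, by simp⟩
    rw [← hv, ← C_mul, Units.mul_inv, C_1]
    ring
  · intro a b ha ih hab
    have h1 : IsCoprime a (b % a) := by
      have h2 := EuclideanDomain.div_add_mod b a
      rw [← h2, isCoprime_comm] at hab
      have h3 := hab
      rw [IsCoprime.mul_add_left_right_iff] at h3
      exact h3
    obtain ⟨X, Y, X', Y', hd, hX, hY⟩ := ih h1
    obtain ⟨Q, hQ⟩ := L.lift (b / a)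
    refine ⟨Q * X + Y, X, -(Q * X' + Y'), -X', ?_, ?_, hX⟩
    · linear_combination hd
    · rw [Polynomial.map_add, Polynomial.map_mul, hQ, hX, hY]
      conv_rhs => rw [← EuclideanDomain.div_add_mod b a]
      ring

omit L in
theorem kill {A B C : k[X]} (hA : A ≠ 0) (h : B ^ 2 = A * C) :
    ∃ w u : k[X], IsCoprime w u ∧ A * w ^ 2 + 2 * B * w * u + C * u ^ 2 = 0 := by
  classical
  have hg : EuclideanDomain.gcd B A ≠ 0 := by
    intro h0
    rw [EuclideanDomain.gcd_eq_zero_iff] at h0
    exact hA h0.2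
  obtain ⟨w, hw⟩ := EuclideanDomain.gcd_dvd_left B A
  obtain ⟨u, hu⟩ := EuclideanDomain.gcd_dvd_right B A
  set g := EuclideanDomain.gcd B A with hgdef
  have hcop : IsCoprime w u := by
    obtain ⟨a, b, hab⟩ : ∃ a b, g = B * a + A * b := ⟨_, _, EuclideanDomain.gcd_eq_gcd_ab B A⟩
    refine ⟨a, b, ?_⟩
    apply mul_left_cancel₀ hg
    calc g * (a * w + b * u) = (g * w) * a + (g * u) * b := by ring
      _ = B * a + A * b := by rw [← hw, ← hu]
      _ = g * 1 := by rw [← hab, mul_one]
  refine ⟨w, -u, hcop.neg_right, ?_⟩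
  have h1 : u * C = g * w ^ 2 := by
    apply mul_left_cancel₀ hg
    calc g * (u * C) = A * C := by rw [hu]; ring
      _ = B ^ 2 := h.symm
      _ = g * (g * w ^ 2) := by rw [hw]; ring
  rw [hu, hw]
  linear_combination u * h1

end

section dom

variable {S : Type} [CommRing S] [IsDomain S] {f : S[X]}

theorem sq_eq {p q : S[X]} (hf : Odd f.natDegree) (h : p ^ 2 = f * q ^ 2) : p = 0 ∧ q = 0 := by
  have hf0 : f ≠ 0 := by
    rintro rfl
    simp at hf
  by_cases hq : q = 0
  · subst hq
    rw [zero_pow two_ne_zero, mul_zero] at h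
    exact ⟨pow_eq_zero_iff two_ne_zero |>.1 h, rfl⟩
  · exfalso
    have h1 := congrArg natDegree h
    rw [natDegree_pow, natDegree_mul hf0 (pow_ne_zero _ hq), natDegree_pow] at h1
    obtain ⟨m, hm⟩ := hf
    omega

theorem norm_ne {w : QA S[X] f} (hf : Odd f.natDegree) (hw : w ≠ 0) : w.norm ≠ 0 := by
  intro h
  rw [QuadraticAlgebra.norm_def] at h
  have h1 : w.re ^ 2 = f * w.im ^ 2 := by linear_combination h
  obtain ⟨h2, h3⟩ := sq_eq hf h1
  exact hw (QuadraticAlgebra.ext h2 h3)

theorem isDomain (hf : Odd f.natDegree) : IsDomain (QA S[X] f) := by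
  haveI : NoZeroDivisors (QA S[X] f) := ⟨fun {a b} hab => by
    by_contra hcon
    push Not at hcon
    have h1 := norm_ne hf hcon.1
    have h2 := norm_ne hf hcon.2
    apply mul_ne_zero h1 h2
    rw [← map_mul, hab, QuadraticAlgebra.norm_zero]⟩
  exact NoZeroDivisors.to_isDomain _

end dom

section level

variable {O K k : Type} [CommRing O] [IsDomain O] [Field K] [Algebra O K] [Field k]
  {red : O →+* k} {π : O} (L : Lc O K k red π)

variable (K) in
/-- Polynomials over `O` as polynomials over `K`. -/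
noncomputable abbrev mp (P : O[X]) : K[X] := P.map (algebraMap O K)

variable (K π) in
/-- The polynomial `P / π ^ j`. -/
noncomputable def dv (j : ℕ) (P : O[X]) : K[X] := C ((algebraMap O K π)⁻¹ ^ j) * mp K P

include L in
theorem Lc.pne : algebraMap O K π ≠ 0 := by
  intro h
  apply L.ne
  apply L.inj
  rw [h, _root_.map_zero]

include L in
theorem Lc.mp_inj {P Q : O[X]} (h : mp K P = mp K Q) : P = Q :=
  Polynomial.map_injective _ L.inj h

include L in
theorem dv_succ (j : ℕ) (P : O[X]) : dv K π (j + 1) (C π * P) = dv K π j P := by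
  unfold dv mp
  rw [Polynomial.map_mul, map_C, ← mul_assoc, ← C_mul, pow_succ, mul_assoc, inv_mul_cancel₀ L.pne,
    mul_one]

theorem dv_zero (P : O[X]) : dv K π 0 P = mp K P := by
  unfold dv
  rw [pow_zero, C_1, one_mul]

theorem idl_scale {f A B : K[X]} {c : K} (hc : c ≠ 0) : idl f (C c * A) B = idl f A B := by
  unfold idl
  apply le_antisymm
  · rw [Ideal.span_le]
    intro w hw
    simp only [Set.mem_insert_iff, Set.mem_singleton_iff] at hw
    rcases hw with rfl | rfl
    · rw [xx_mul]
      exact Ideal.mul_mem_left _ _ (Ideal.subset_span (by simp))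
    · exact Ideal.subset_span (by simp)
  · rw [Ideal.span_le]
    intro w hw
    simp only [Set.mem_insert_iff, Set.mem_singleton_iff] at hw
    rcases hw with rfl | rfl
    · have : xx f A = xx f (C c⁻¹) * xx f (C c * A) := by
        rw [← xx_mul, ← mul_assoc, ← C_mul, inv_mul_cancel₀ hc, C_1, one_mul]
      rw [this]
      exact Ideal.mul_mem_left _ _ (Ideal.subset_span (by simp))
    · exact Ideal.subset_span (by simp)

theorem ne_of {f A B D : O[X]} {c : O} (hc : c ≠ 0) (hf : Odd f.natDegree)
    (h : B ^ 2 - A * D = C c * f) : A ≠ 0 := by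
  rintro rfl
  rw [zero_mul, sub_zero] at h
  have hf0 : f ≠ 0 := by
    rintro rfl
    simp at hf
  have h1 := congrArg natDegree h
  rw [natDegree_pow, natDegree_C_mul hc] at h1
  rw [← h1] at hf
  exact (Nat.not_odd_iff_even.2 (even_two_mul _)) hf

/-- The transformed form. -/
theorem form_change {R : Type} [CommRing R] {A B D X Y X' Y' : R} (hd : X * Y' - X' * Y = 1) :
    (A * X * X' + B * (X * Y' + X' * Y) + D * Y * Y') ^ 2 -
      (A * X ^ 2 + 2 * B * X * Y + D * Y ^ 2) * (A * X' ^ 2 + 2 * B * X' * Y' + D * Y' ^ 2) =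
      B ^ 2 - A * D := by
  have : (A * X * X' + B * (X * Y' + X' * Y) + D * Y * Y') ^ 2 -
      (A * X ^ 2 + 2 * B * X * Y + D * Y ^ 2) * (A * X' ^ 2 + 2 * B * X' * Y' + D * Y' ^ 2) =
      (B ^ 2 - A * D) * (X * Y' - X' * Y) ^ 2 := by ring
  rw [this, hd]
  ring

include L in
theorem Lc.eqv_change {f A B D : O[X]} (hf : Odd f.natDegree) {j : ℕ}
    (h : B ^ 2 - A * D = C (π ^ (2 * j)) * f) {X Y X' Y' : O[X]} (hd : X * Y' - X' * Y = 1) :
    Eqv (idl (mp K f) (mp K A) (dv K π j B))
      (idl (mp K f) (mp K (A * X ^ 2 + 2 * B * X * Y + D * Y ^ 2))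
        (dv K π j (A * X * X' + B * (X * Y' + X' * Y) + D * Y * Y'))) := by
  have hA : A ≠ 0 := ne_of (pow_ne_zero _ L.ne) hf h
  have hc : (algebraMap O K π)⁻¹ ^ j ≠ 0 := pow_ne_zero _ (inv_ne_zero L.pne)
  have hAK : mp K A ≠ 0 := by
    intro h0
    apply hA
    apply L.mp_inj (K := K)
    rw [h0]
    exact (Polynomial.map_zero _).symm
  have e1 : dv K π j A = C ((algebraMap O K π)⁻¹ ^ j) * mp K A := rfl
  have hdA : dv K π j A ≠ 0 := mul_ne_zero (by rwa [Ne, C_eq_zero]) hAK
  have hdK : mp K X * mp K Y' - mp K X' * mp K Y = 1 := by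
    have := congrArg (mp K) hd
    simpa using this
  have h1 : dv K π j B ^ 2 - dv K π j A * dv K π j D = mp K f := by
    have h2 := congrArg (mp K) h
    unfold mp at h2
    rw [Polynomial.map_sub, Polynomial.map_pow, Polynomial.map_mul, Polynomial.map_mul, map_C,
      _root_.map_pow] at h2
    have h3 : (C ((algebraMap O K π)⁻¹ ^ j) : K[X]) ^ 2 * C ((algebraMap O K π) ^ (2 * j)) = 1 := by
      rw [← C_pow, ← C_mul, ← pow_mul, mul_comm j 2, ← mul_pow, inv_mul_cancel₀ L.pne, one_pow, C_1]
    unfold dv mp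
    calc _ = (C ((algebraMap O K π)⁻¹ ^ j) : K[X]) ^ 2 *
          (B.map (algebraMap O K) ^ 2 - A.map (algebraMap O K) * D.map (algebraMap O K)) := by ring
      _ = ((C ((algebraMap O K π)⁻¹ ^ j) : K[X]) ^ 2 * C ((algebraMap O K π) ^ (2 * j))) *
          f.map (algebraMap O K) := by rw [h2]; ring
      _ = _ := by rw [h3, one_mul]
  have h4 := idl_change h1 hdK
  have e2 : dv K π j A * mp K X ^ 2 + 2 * dv K π j B * mp K X * mp K Y + dv K π j D * mp K Y ^ 2 =
      C ((algebraMap O K π)⁻¹ ^ j) * mp K (A * X ^ 2 + 2 * B * X * Y + D * Y ^ 2) := by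
    unfold dv mp
    simp only [Polynomial.map_add, Polynomial.map_mul, Polynomial.map_pow, Polynomial.map_ofNat]
    ring
  have e3 : dv K π j A * mp K X * mp K X' + dv K π j B * (mp K X * mp K Y' + mp K X' * mp K Y) +
      dv K π j D * mp K Y * mp K Y' =
      dv K π j (A * X * X' + B * (X * Y' + X' * Y) + D * Y * Y') := by
    unfold dv mp
    simp only [Polynomial.map_add, Polynomial.map_mul, Polynomial.map_pow, Polynomial.map_ofNat]
    ring
  rw [e1, idl_scale hc, ← e1, e2, e3, idl_scale hc] at h4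
  refine ⟨_, _, ?_, ?_, h4⟩
  · intro h0
    have h5 := congrArg QuadraticAlgebra.re h0
    have h6 := congrArg QuadraticAlgebra.im h0
    simp only [QuadraticAlgebra.re_zero, QuadraticAlgebra.im_zero] at h5 h6
    rw [h6, zero_mul, add_zero, mul_eq_zero, or_iff_left hdA] at h5
    rw [h5, h6] at hdK
    simp at hdK
  · rw [Ne, xx_eq_zero]
    exact hdA

include L in
/-- Every form of discriminant `π ^ (2 j) f` comes from a form of discriminant `f`. -/
theorem Lc.min {f : O[X]} (hf : Odd f.natDegree) : ∀ (j : ℕ) (A B D : O[X]),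
    B ^ 2 - A * D = C (π ^ (2 * j)) * f → ∃ A' B' D' : O[X], B' ^ 2 - A' * D' = f ∧
      Eqv (idl (mp K f) (mp K A) (dv K π j B)) (idl (mp K f) (mp K A') (mp K B')) := by
  haveI : IsDomain (QA K[X] (mp K f)) := isDomain (by
    unfold mp
    rwa [natDegree_map_eq_of_injective L.inj])
  intro j
  induction j with
  | zero =>
    intro A B D h
    refine ⟨A, B, D, ?_, ?_⟩
    · rw [h]; simp
    · rw [dv_zero]
      exact Eqv.refl _
  | succ j ih =>
    have key : ∀ A B D : O[X], B ^ 2 - A * D = C (π ^ (2 * (j + 1))) * f → A.map red = 0 →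
        ∃ A' B' D' : O[X], B' ^ 2 - A' * D' = f ∧
        Eqv (idl (mp K f) (mp K A) (dv K π (j + 1) B)) (idl (mp K f) (mp K A') (mp K B')) := by
      intro A B D h hA
      have hB : B.map red = 0 := by
        have h1 := congrArg (Polynomial.map red) h
        rw [Polynomial.map_sub, Polynomial.map_mul, hA, zero_mul, sub_zero, Polynomial.map_mul, map_C,
          (L.ker _).2 (dvd_pow_self π (by omega)), C_0, zero_mul, Polynomial.map_pow] at h1
        exact pow_eq_zero_iff (two_ne_zero) |>.1 h1
      obtain ⟨A3, rfl⟩ := L.map_zero.1 hA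
      obtain ⟨B3, rfl⟩ := L.map_zero.1 hB
      have hpi := L.Cne
      have h2 : C π * B3 ^ 2 - A3 * D = C (π ^ (2 * j + 1)) * f := by
        apply mul_left_cancel₀ hpi
        calc C π * (C π * B3 ^ 2 - A3 * D) = (C π * B3) ^ 2 - C π * A3 * D := by ring
          _ = _ := by
            rw [h, ← mul_assoc, ← C_mul]
            congr 2
            ring
      have h3 : A3.map red * D.map red = 0 := by
        have h4 := congrArg (Polynomial.map red) h2
        rw [Polynomial.map_sub, Polynomial.map_mul, Polynomial.map_mul, Polynomial.map_mul, map_C,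
          map_C, (L.ker _).2 (dvd_pow_self π (by omega)), (L.ker _).2 (dvd_refl π), C_0, zero_mul,
          zero_mul, zero_sub, neg_eq_zero] at h4
        exact h4
      rcases mul_eq_zero.1 h3 with h4 | h4
      · obtain ⟨A4, rfl⟩ := L.map_zero.1 h4
        have h5 : B3 ^ 2 - A4 * D = C (π ^ (2 * j)) * f := by
          apply mul_left_cancel₀ hpi
          calc C π * (B3 ^ 2 - A4 * D) = C π * B3 ^ 2 - C π * A4 * D := by ring
            _ = _ := by
              rw [h2, ← mul_assoc, ← C_mul]
              congr 2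
              ring
        obtain ⟨A', B', D', h6, h7⟩ := ih A4 B3 D h5
        refine ⟨A', B', D', h6, ?_⟩
        rw [dv_succ L]
        unfold mp at h7 ⊢
        rw [Polynomial.map_mul, Polynomial.map_mul, map_C, idl_scale L.pne, idl_scale L.pne]
        exact h7
      · obtain ⟨D4, rfl⟩ := L.map_zero.1 h4
        have h5 : B3 ^ 2 - A3 * D4 = C (π ^ (2 * j)) * f := by
          apply mul_left_cancel₀ hpi
          calc C π * (B3 ^ 2 - A3 * D4) = C π * B3 ^ 2 - A3 * (C π * D4) := by ring
            _ = _ := by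
              rw [h2, ← mul_assoc, ← C_mul]
              congr 2
              ring
        obtain ⟨A', B', D', h6, h7⟩ := ih A3 B3 D4 h5
        refine ⟨A', B', D', h6, ?_⟩
        rw [dv_succ L]
        unfold mp at h7 ⊢
        rw [Polynomial.map_mul, map_C, idl_scale L.pne]
        exact h7
    intro A B D h
    by_cases hA : A.map red = 0
    · exact key A B D h hA
    · have h1 : B.map red ^ 2 = A.map red * D.map red := by
        have h2 := congrArg (Polynomial.map red) h
        rw [Polynomial.map_sub, Polynomial.map_mul, Polynomial.map_mul, map_C,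
          (L.ker _).2 (dvd_pow_self π (by omega)), C_0, zero_mul, Polynomial.map_pow,
          sub_eq_zero] at h2
        exact h2
      obtain ⟨w, u, hwu, h2⟩ := kill hA h1
      obtain ⟨X, Y, X', Y', hd, hX, hY⟩ := L.sl2 u w hwu
      obtain ⟨A', B', D', h6, h7⟩ := key (A * X ^ 2 + 2 * B * X * Y + D * Y ^ 2)
        (A * X * X' + B * (X * Y' + X' * Y) + D * Y * Y')
        (A * X' ^ 2 + 2 * B * X' * Y' + D * Y' ^ 2) (by rw [form_change hd, h]) (by
          simp only [Polynomial.map_add, Polynomial.map_mul, Polynomial.map_pow,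
            Polynomial.map_ofNat, hX, hY]
          exact h2)
      exact ⟨A', B', D', h6, (L.eqv_change hf h hd).trans h7⟩

end level

end Pool.Agent.H458.PD
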