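import Pool.Agent.H458.PD.Pai

/-!
# A value with invertible leading coefficient
-/

set_option autoImplicit false
set_option linter.all false

open Polynomial
open scoped Classical

namespace Pool.Agent.H458.PD

section

variable {S : Type} [CommRing S] [IsDomain S] {f : S[X]}

theorem parity {g : ℕ} (hf : f.natDegree = 2 * g + 1) {p y : S[X]} {n : ℕ}
    (h : (p ^ 2 - f * y ^ 2).natDegree ≤ n) :
    2 * p.natDegree ≤ n ∧ (y ≠ 0 → 2 * y.natDegree + 2 * g + 1 ≤ n) := by
  have hf0 : f ≠ 0 := by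
    rintro rfl
    simp at hf
  by_cases hy : y = 0
  · subst hy
    rw [zero_pow two_ne_zero, mul_zero, sub_zero, natDegree_pow] at h
    exact ⟨h, fun h0 => absurd rfl h0⟩
  · have e1 : (f * y ^ 2).natDegree = 2 * g + 1 + 2 * y.natDegree := by
      rw [natDegree_mul hf0 (pow_ne_zero _ hy), natDegree_pow, hf]
    have e2 : (p ^ 2).natDegree = 2 * p.natDegree := natDegree_pow _ _
    rcases lt_trichotomy (p ^ 2).natDegree (f * y ^ 2).natDegree with h1 | h1 | h1
    · rw [natDegree_sub_eq_right_of_natDegree_lt h1] at h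
      exact ⟨by omega, fun _ => by omega⟩
    · exfalso
      omega
    · rw [natDegree_sub_eq_left_of_natDegree_lt h1] at h
      exact ⟨by omega, fun _ => by omega⟩

theorem value_deg {g N P R : ℕ} (hf : f.natDegree = 2 * g + 1) {A B D T Y : S[X]} (hA : A ≠ 0)
    (h : B ^ 2 - A * D = f) (hp : (A * T + B * Y).natDegree ≤ P) (hy : Y.natDegree ≤ R)
    (h1 : 2 * P ≤ N + A.natDegree) (h2 : 2 * R + 2 * g + 1 ≤ N + A.natDegree) :
    (A * T ^ 2 + 2 * B * T * Y + D * Y ^ 2).natDegree ≤ N := by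
  have e : A * (A * T ^ 2 + 2 * B * T * Y + D * Y ^ 2) = (A * T + B * Y) ^ 2 - f * Y ^ 2 := by
    rw [← h]; ring
  by_cases h0 : A * T ^ 2 + 2 * B * T * Y + D * Y ^ 2 = 0
  · rw [h0, natDegree_zero]
    exact Nat.zero_le _
  · have h3 := congrArg natDegree e
    rw [natDegree_mul hA h0] at h3
    have h4 : ((A * T + B * Y) ^ 2 - f * Y ^ 2).natDegree ≤ N + A.natDegree := by
      refine (natDegree_sub_le _ _).trans (max_le ?_ ?_)
      · rw [natDegree_pow]
        omega
      · refine (natDegree_mul_le).trans ?_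
        rw [natDegree_pow, hf]
        omega
    omega

end

section

variable {O K k : Type} [CommRing O] [IsDomain O] [Field K] [Algebra O K] [Field k]
  {red : O →+* k} {π : O} (L : Lc O K k red π)

include L

theorem Lc.move [IsPrincipalIdealRing O] (h2 : (2 : k) = 0) {f : O[X]} (hfm : f.Monic) {g : ℕ}
    (hfd : f.natDegree = 2 * g + 1) {A B D : O[X]} (h : B ^ 2 - A * D = f) :
    ∃ X Y X' Y' : O[X], X * Y' - X' * Y = 1 ∧
      IsUnit (A * X ^ 2 + 2 * B * X * Y + D * Y ^ 2).leadingCoeff := by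
  have h2X : (2 : k[X]) = 0 := by
    rw [← C_ofNat, h2, C_0]
  obtain ⟨Ab, hAb⟩ : ∃ Ab, Ab = A.map red := ⟨_, rfl⟩
  obtain ⟨Bb, hBb⟩ : ∃ Bb, Bb = B.map red := ⟨_, rfl⟩
  obtain ⟨Db, hDb⟩ : ∃ Db, Db = D.map red := ⟨_, rfl⟩
  have hfb : Bb ^ 2 - Ab * Db = f.map red := by
    rw [← h, hAb, hBb, hDb]; simp
  have hfbd : (f.map red).natDegree = 2 * g + 1 := by rw [hfm.natDegree_map, hfd]
  have hA0 : Ab ≠ 0 := by
    intro h0
    rw [h0, zero_mul, sub_zero] at hfb
    have := congrArg natDegree hfb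
    rw [natDegree_pow, hfbd] at this
    omega
  have hA : A ≠ 0 := by
    rintro rfl
    apply hA0
    rw [hAb, Polynomial.map_zero]
  have hab : Ab.natDegree ≤ A.natDegree := by rw [hAb]; exact natDegree_map_le
  have hbb : Bb.natDegree ≤ B.natDegree := by rw [hBb]; exact natDegree_map_le
  have hdb : Db.natDegree ≤ D.natDegree := by rw [hDb]; exact natDegree_map_le
  obtain ⟨a, ha⟩ : ∃ a, a = A.natDegree := ⟨_, rfl⟩
  obtain ⟨b, hb⟩ : ∃ b, b = B.natDegree := ⟨_, rfl⟩
  obtain ⟨d, hd⟩ : ∃ d, d = D.natDegree := ⟨_, rfl⟩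
  obtain ⟨ab, hab'⟩ : ∃ ab, ab = Ab.natDegree := ⟨_, rfl⟩
  obtain ⟨j, hj⟩ : ∃ j, j = a + b + d + 2 * g + 2 := ⟨_, rfl⟩
  obtain ⟨N, hN⟩ : ∃ N, N = ab + 2 * j := ⟨_, rfl⟩
  obtain ⟨P, hP⟩ : ∃ P, P = (N + a) / 2 := ⟨_, rfl⟩
  obtain ⟨R, hR⟩ : ∃ R, R = (N + a - (2 * g + 1)) / 2 := ⟨_, rfl⟩
  rw [← ha, ← hab'] at hab
  rw [← hb] at hbb
  rw [← hd] at hdb
  obtain ⟨ν, T, Y, hν, hT, hY, hTY, hli⟩ := L.pairs A B (P + b - a + 1) (R + 1) P b
    (by omega) (by omega)
  obtain ⟨Z, hZ, hZfin, hZrk⟩ := finrank_Z (A := Ab) (B := Bb) hA0 ((N + ab) / 2 + 1)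
    ((N + ab - (2 * g + 1)) / 2 + 1) (by omega)
  rw [← hab'] at hZrk
  have hYR : ∀ y : O[X], y.degree < (R + 1 : ℕ) → y.natDegree ≤ R := by
    intro y hy
    by_cases h0 : y = 0
    · rw [h0, natDegree_zero]; exact Nat.zero_le _
    · have := (natDegree_lt_iff_degree_lt h0).2 hy
      omega
  have hw : ∀ i, (Ab * (T i).map red + Bb * (Y i).map red, (Y i).map red) ∈ Z := by
    intro i
    rw [hZ]
    have h3 := value_deg hfd hA h (hTY i) (hYR _ (hY i)) (N := N) (by omega) (by omega)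
    have h4 : ((A * T i ^ 2 + 2 * B * T i * Y i + D * Y i ^ 2).map red).natDegree ≤ N :=
      natDegree_map_le.trans h3
    have h5 : ((Ab * (T i).map red + Bb * (Y i).map red) ^ 2 -
        f.map red * ((Y i).map red) ^ 2).natDegree ≤ N + ab := by
      have e : (Ab * (T i).map red + Bb * (Y i).map red) ^ 2 - f.map red * ((Y i).map red) ^ 2 =
          Ab * ((A * T i ^ 2 + 2 * B * T i * Y i + D * Y i ^ 2).map red) := by
        rw [← hfb, hAb, hBb, hDb]
        simp only [Polynomial.map_add, Polynomial.map_mul, Polynomial.map_pow,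
          Polynomial.map_ofNat]
        ring
      rw [e]
      refine natDegree_mul_le.trans ?_
      omega
    obtain ⟨h6, h7⟩ := parity hfbd h5
    refine ⟨?_, ?_, ?_⟩
    · change (Ab * (T i).map red + Bb * (Y i).map red).degree < _
      refine lt_of_le_of_lt degree_le_natDegree ?_
      exact_mod_cast (by omega)
    · change ((Y i).map red).degree < _
      by_cases h0 : (Y i).map red = 0
      · rw [h0, degree_zero]
        exact WithBot.bot_lt_coe _
      · refine lt_of_le_of_lt degree_le_natDegree ?_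
        have := h7 h0
        exact_mod_cast (by omega)
    · simp only
      rw [add_sub_cancel_right]
      exact dvd_mul_right _ _
  obtain ⟨ψ, hψ⟩ : ∃ ψ : (k[X] × k[X]) →ₗ[k] (k[X] × k[X]), ∀ w, ψ w = (Ab * w.1 + Bb * w.2, w.2) :=
    ⟨((LinearMap.mulLeft k Ab).comp (LinearMap.fst k _ _) +
      (LinearMap.mulLeft k Bb).comp (LinearMap.snd k _ _)).prod (LinearMap.snd k _ _),
      fun w => by simp⟩
  have hψ0 : LinearMap.ker ψ = ⊥ := by
    rw [LinearMap.ker_eq_bot']
    intro w hw0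
    rw [hψ] at hw0
    have h3 : w.2 = 0 := congrArg Prod.snd hw0
    have h4 : Ab * w.1 + Bb * w.2 = 0 := congrArg Prod.fst hw0
    rw [h3, mul_zero, add_zero, mul_eq_zero, or_iff_right hA0] at h4
    exact Prod.ext h4 h3
  have hli2 := hli.map' ψ hψ0
  obtain ⟨wv, hwv⟩ : ∃ wv : Fin ν → Z, ∀ i, (wv i : k[X] × k[X]) =
      (Ab * (T i).map red + Bb * (Y i).map red, (Y i).map red) :=
    ⟨fun i => ⟨_, hw i⟩, fun i => rfl⟩
  have hli3 : LinearIndependent k wv := by
    apply LinearIndependent.of_comp Z.subtype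
    have : (⇑Z.subtype ∘ wv) = ⇑ψ ∘ fun i => (((T i).map red, (Y i).map red) : k[X] × k[X]) := by
      funext i
      rw [Function.comp_apply, Function.comp_apply, hψ]
      exact hwv i
    rw [this]
    exact hli2
  have hcard : Fintype.card (Fin ν) = Module.finrank k Z := by
    have h3 := hli3.fintype_card_le_finrank
    rw [Fintype.card_fin] at h3 ⊢
    omega
  have hspan := hli3.span_eq_top_of_card_eq_finrank' hcard
  have hwst : (Ab * Polynomial.X ^ j + Bb, 1) ∈ Z := by
    rw [hZ]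
    refine ⟨?_, ?_, ?_⟩
    · change (Ab * Polynomial.X ^ j + Bb).degree < _
      refine lt_of_le_of_lt degree_le_natDegree ?_
      have h3 : (Ab * Polynomial.X ^ j + Bb).natDegree ≤ ab + j := by
        refine (natDegree_add_le _ _).trans (max_le ?_ (by omega))
        refine natDegree_mul_le.trans ?_
        rw [natDegree_X_pow]
        omega
      exact_mod_cast (by omega)
    · rw [degree_one]
      exact_mod_cast Nat.succ_pos _
    · simp only
      rw [mul_one, add_sub_cancel_right]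
      exact dvd_mul_right _ _
  obtain ⟨c, hc⟩ : ∃ c : Fin ν → k, ∑ i, c i • wv i = ⟨_, hwst⟩ := by
    have h3 : (⟨_, hwst⟩ : Z) ∈ Submodule.span k (Set.range wv) := by
      rw [hspan]; exact Submodule.mem_top
    exact (Submodule.mem_span_range_iff_exists_fun k).1 h3
  choose c' hc' using fun i => L.surj (c i)
  obtain ⟨Ts, hTs⟩ : ∃ Ts, Ts = ∑ i, C (c' i) * T i := ⟨_, rfl⟩
  obtain ⟨Ys, hYs⟩ : ∃ Ys, Ys = ∑ i, C (c' i) * Y i := ⟨_, rfl⟩
  have hc2 : ∑ i, c i • (Ab * (T i).map red + Bb * (Y i).map red, (Y i).map red) =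
      ((Ab * Polynomial.X ^ j + Bb, 1) : k[X] × k[X]) := by
    have h3 := congrArg (Submodule.subtype Z) hc
    rw [map_sum] at h3
    simp only [map_smul, Submodule.subtype_apply, hwv] at h3
    exact h3
  have hYs1 : Ys.map red = 1 := by
    have h3 := congrArg Prod.snd hc2
    rw [Prod.snd_sum] at h3
    simp only [Prod.smul_snd] at h3
    rw [hYs, Polynomial.map_sum, ← h3]
    refine Finset.sum_congr rfl fun i _ => ?_
    rw [Polynomial.map_mul, map_C, hc', smul_eq_C_mul]
  have hTs1 : Ts.map red = Polynomial.X ^ j := by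
    have h3 := congrArg Prod.fst hc2
    rw [Prod.fst_sum] at h3
    simp only [Prod.smul_fst] at h3
    have h4 : Ab * Ts.map red + Bb * Ys.map red = Ab * Polynomial.X ^ j + Bb := by
      rw [← h3, hTs, hYs, Polynomial.map_sum, Polynomial.map_sum, Finset.mul_sum, Finset.mul_sum,
        ← Finset.sum_add_distrib]
      refine Finset.sum_congr rfl fun i _ => ?_
      rw [Polynomial.map_mul, Polynomial.map_mul, map_C, hc', smul_eq_C_mul]
      ring
    rw [hYs1, mul_one] at h4
    exact mul_left_cancel₀ hA0 (add_right_cancel h4)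
  have hYsd : Ys.natDegree ≤ R := by
    rw [hYs]
    refine natDegree_sum_le_of_forall_le _ _ fun i _ => ?_
    exact (natDegree_C_mul_le _ _).trans (hYR _ (hY i))
  have hPsd : (A * Ts + B * Ys).natDegree ≤ P := by
    have e : A * Ts + B * Ys = ∑ i, C (c' i) * (A * T i + B * Y i) := by
      rw [hTs, hYs, Finset.mul_sum, Finset.mul_sum, ← Finset.sum_add_distrib]
      exact Finset.sum_congr rfl fun i _ => by ring
    rw [e]
    refine natDegree_sum_le_of_forall_le _ _ fun i _ => ?_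
    exact (natDegree_C_mul_le _ _).trans (hTY i)
  obtain ⟨V, hV⟩ : ∃ V, V = A * Ts ^ 2 + 2 * B * Ts * Ys + D * Ys ^ 2 := ⟨_, rfl⟩
  have hVd : V.natDegree ≤ N := by
    rw [hV]
    exact value_deg hfd hA h hPsd hYsd (by omega) (by omega)
  have hVc : red (V.coeff N) ≠ 0 := by
    rw [← coeff_map, hV]
    simp only [Polynomial.map_add, Polynomial.map_mul, Polynomial.map_pow, Polynomial.map_ofNat,
      hTs1, hYs1, h2X, zero_mul, add_zero, one_pow, mul_one, ← hAb, ← hDb]
    rw [coeff_add, coeff_eq_zero_of_natDegree_lt (by omega : Db.natDegree < N), add_zero, ← pow_mul,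
      show N = ab + j * 2 by omega, coeff_mul_X_pow, hab']
    exact leadingCoeff_ne_zero.2 hA0
  have hVu : IsUnit V.leadingCoeff := by
    have h3 : V.natDegree = N := by
      apply le_antisymm hVd
      apply le_natDegree_of_ne_zero
      intro h0
      rw [h0, _root_.map_zero] at hVc
      exact hVc rfl
    rw [leadingCoeff, h3]
    exact L.unit _ hVc
  have htop := L.nak (I := Ideal.span {Ts, Ys}) hVu (by
    rw [hV, Ideal.mem_span_pair]
    exact ⟨A * Ts + 2 * B * Ys, D * Ys, by ring⟩) (P := Ys) (Ideal.subset_span (by simp)) hYs1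
  rw [Ideal.eq_top_iff_one, Ideal.mem_span_pair] at htop
  obtain ⟨r, s, hrs⟩ := htop
  refine ⟨Ts, Ys, -s, r, ?_, ?_⟩
  · linear_combination hrs
  · rw [← hV]
    exact hVu

end

end Pool.Agent.H458.PD
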