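import Pool.Agent.H458.PD.Lin

/-!
# Pairs of polynomials
-/

set_option autoImplicit false
set_option linter.all false

open Polynomial
open scoped Classical

namespace Pool.Agent.H458.PD

section

variable (S : Type) [CommRing S]

/-- The first component. -/
noncomputable def Tl (m1 m2 : ℕ) : (Fin (m1 + m2) → S) →ₗ[S] S[X] :=
  (ofFn m1).comp (LinearMap.funLeft S S (Fin.castAdd m2))

/-- The second component. -/
noncomputable def Yl (m1 m2 : ℕ) : (Fin (m1 + m2) → S) →ₗ[S] S[X] :=
  (ofFn m2).comp (LinearMap.funLeft S S (Fin.natAdd m1))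

theorem Tl_deg (m1 m2 : ℕ) (v : Fin (m1 + m2) → S) : (Tl S m1 m2 v).degree < m1 :=
  ofFn_degree_lt _

theorem Yl_deg (m1 m2 : ℕ) (v : Fin (m1 + m2) → S) : (Yl S m1 m2 v).degree < m2 :=
  ofFn_degree_lt _

theorem TY_inj (m1 m2 : ℕ) : LinearMap.ker ((Tl S m1 m2).prod (Yl S m1 m2)) = ⊥ := by
  rw [LinearMap.ker_eq_bot]
  intro v w h
  have h1 : Tl S m1 m2 v = Tl S m1 m2 w := congrArg Prod.fst h
  have h2 : Yl S m1 m2 v = Yl S m1 m2 w := congrArg Prod.snd h
  have h3 := injective_ofFn _ h1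
  have h4 := injective_ofFn _ h2
  funext i
  refine Fin.addCases (fun i => ?_) (fun i => ?_) i
  · exact congrFun h3 i
  · exact congrFun h4 i

end

section

variable {O k : Type} [CommRing O] [CommRing k] (red : O →+* k)

theorem ofFn_map (n : ℕ) (v : Fin n → O) : (ofFn n v).map red = ofFn n (fun i => red (v i)) := by
  ext i
  rw [coeff_map]
  by_cases h : i < n
  · rw [ofFn_coeff_eq_val_of_lt _ h, ofFn_coeff_eq_val_of_lt _ h]
  · rw [ofFn_coeff_eq_zero_of_ge _ (not_lt.1 h), ofFn_coeff_eq_zero_of_ge _ (not_lt.1 h), map_zero]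

theorem Tl_map (m1 m2 : ℕ) (v : Fin (m1 + m2) → O) :
    (Tl O m1 m2 v).map red = Tl k m1 m2 (fun i => red (v i)) := ofFn_map red _ _

theorem Yl_map (m1 m2 : ℕ) (v : Fin (m1 + m2) → O) :
    (Yl O m1 m2 v).map red = Yl k m1 m2 (fun i => red (v i)) := ofFn_map red _ _

end

section

variable {O K k : Type} [CommRing O] [IsDomain O] [Field K] [Algebra O K] [Field k]
  {red : O →+* k} {π : O} (L : Lc O K k red π)

include L

/-- Many pairs `(T, Y)` such that `A T + B Y` has small degree, independent modulo `π`. -/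
theorem Lc.pairs [IsPrincipalIdealRing O] (A B : O[X]) (m1 m2 P b : ℕ)
    (h1 : A.natDegree + m1 ≤ P + b + 1) (h2 : B.natDegree + m2 ≤ P + b + 1) :
    ∃ (ν : ℕ) (T Y : Fin ν → O[X]), m1 + m2 ≤ ν + b ∧ (∀ i, (T i).degree < m1) ∧
      (∀ i, (Y i).degree < m2) ∧ (∀ i, (A * T i + B * Y i).natDegree ≤ P) ∧
      LinearIndependent k fun i => (((T i).map red, (Y i).map red) : k[X] × k[X]) := by
  obtain ⟨Φ, hΦ⟩ : ∃ Φ : (Fin (m1 + m2) → O) →ₗ[O] (Fin b → O), ∀ v i,
      Φ v i = (A * Tl O m1 m2 v + B * Yl O m1 m2 v).coeff (P + 1 + i) := by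
    refine ⟨LinearMap.pi fun i => (lcoeff O (P + 1 + i)).comp
      ((LinearMap.mulLeft O A).comp (Tl O m1 m2) + (LinearMap.mulLeft O B).comp (Yl O m1 m2)),
      fun v i => ?_⟩
    simp [lcoeff_apply]
  obtain ⟨ν, v, hν, hv, hli⟩ := L.ker_basis Φ
  refine ⟨ν, fun i => Tl O m1 m2 (v i), fun i => Yl O m1 m2 (v i), hν, fun i => Tl_deg _ _ _ _,
    fun i => Yl_deg _ _ _ _, fun i => ?_, ?_⟩
  · change (A * Tl O m1 m2 (v i) + B * Yl O m1 m2 (v i)).natDegree ≤ P
    rw [natDegree_le_iff_coeff_eq_zero]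
    intro n hn
    by_cases hnb : n < P + 1 + b
    · have h3 := congrFun (hv i) ⟨n - (P + 1), by omega⟩
      rw [hΦ] at h3
      simpa [show P + 1 + (n - (P + 1)) = n by omega] using h3
    · apply coeff_eq_zero_of_degree_lt
      apply lt_of_le_of_lt (degree_add_le _ _)
      rw [max_lt_iff]
      constructor
      · apply lt_of_le_of_lt (degree_mul_le _ _)
        by_cases h0 : Tl O m1 m2 (v i) = 0
        · rw [h0, degree_zero, WithBot.add_bot]
          exact WithBot.bot_lt_coe _
        · have h4 := (natDegree_lt_iff_degree_lt h0).2 (Tl_deg O m1 m2 (v i))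
          have h5 := degree_le_natDegree (p := A)
          have h6 := degree_le_natDegree (p := Tl O m1 m2 (v i))
          refine lt_of_le_of_lt (add_le_add h5 h6) ?_
          exact_mod_cast (by omega)
      · apply lt_of_le_of_lt (degree_mul_le _ _)
        by_cases h0 : Yl O m1 m2 (v i) = 0
        · rw [h0, degree_zero, WithBot.add_bot]
          exact WithBot.bot_lt_coe _
        · have h4 := (natDegree_lt_iff_degree_lt h0).2 (Yl_deg O m1 m2 (v i))
          have h5 := degree_le_natDegree (p := B)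
          have h6 := degree_le_natDegree (p := Yl O m1 m2 (v i))
          refine lt_of_le_of_lt (add_le_add h5 h6) ?_
          exact_mod_cast (by omega)
  · have h3 := hli.map' _ (TY_inj k m1 m2)
    have h4 : (fun i => (((Tl O m1 m2 (v i)).map red, (Yl O m1 m2 (v i)).map red) : k[X] × k[X])) =
        (((Tl k m1 m2).prod (Yl k m1 m2)) ∘ fun i j => red (v i j)) := by
      funext i
      rw [Tl_map, Yl_map]
      rfl
    rw [h4]
    exact h3

end

section field

variable {k : Type} [Field k]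

/-- The space of the pairs `(p, y)` with `p ≡ B y` modulo `A` and of bounded degree. -/
theorem finrank_Z {A B : k[X]} (hA : A ≠ 0) (n1 n2 : ℕ) (hn : A.natDegree ≤ n1) :
    ∃ Z : Submodule k (k[X] × k[X]), (∀ w, w ∈ Z ↔ w.1.degree < n1 ∧ w.2.degree < n2 ∧
      A ∣ w.1 - B * w.2) ∧ Module.Finite k Z ∧ Module.finrank k Z + A.natDegree = n1 + n2 := by
  set W : Submodule k (k[X] × k[X]) := (degreeLT k n1).prod (degreeLT k n2) with hW
  obtain ⟨θ, hθ⟩ : ∃ θ : (degreeLT k n1 × degreeLT k n2) →ₗ[k] (k[X] ⧸ Ideal.span {A}),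
      ∀ w, θ w = Ideal.Quotient.mk _ ((w.1 : k[X]) - B * (w.2 : k[X])) := by
    refine ⟨((Ideal.Quotient.mkₐ k (Ideal.span {A})).toLinearMap).comp
      (((degreeLT k n1).subtype.comp (LinearMap.fst k _ _)) -
        (LinearMap.mulLeft k B).comp ((degreeLT k n2).subtype.comp (LinearMap.snd k _ _))),
      fun w => ?_⟩
    simp
  have hsurj : Function.Surjective θ := by
    intro q
    obtain ⟨p, rfl⟩ := Ideal.Quotient.mk_surjective q
    have h1 : (p % A).degree < n1 := by
      have h2 := EuclideanDomain.mod_lt p hA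
      have h3 : (p % A).degree < A.degree := h2
      refine lt_of_lt_of_le h3 ?_
      rw [degree_eq_natDegree hA]
      exact_mod_cast hn
    refine ⟨(⟨p % A, mem_degreeLT.2 h1⟩, 0), ?_⟩
    rw [hθ]
    simp only [ZeroMemClass.coe_zero, mul_zero, sub_zero]
    rw [Ideal.Quotient.eq, Ideal.mem_span_singleton]
    exact ⟨-(p / A), by
      have := EuclideanDomain.div_add_mod p A
      linear_combination this⟩
  have hrk := LinearMap.finrank_range_add_finrank_ker θ
  rw [LinearMap.range_eq_top.2 hsurj, finrank_top, finrank_quotient_span_eq_natDegree,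
    Module.finrank_prod] at hrk
  have hdim : ∀ n, Module.finrank k (degreeLT k n) = n := by
    intro n
    rw [(degreeLTEquiv k n).finrank_eq, Module.finrank_fin_fun]
  rw [hdim, hdim] at hrk
  set ι : (degreeLT k n1 × degreeLT k n2) →ₗ[k] (k[X] × k[X]) :=
    (degreeLT k n1).subtype.prodMap (degreeLT k n2).subtype with hι
  have hinj : Function.Injective ι := by
    intro a b hab
    have h1 : (a.1 : k[X]) = b.1 := congrArg Prod.fst hab
    have h2 : (a.2 : k[X]) = b.2 := congrArg Prod.snd hab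
    exact Prod.ext (Subtype.ext h1) (Subtype.ext h2)
  refine ⟨(LinearMap.ker θ).map ι, fun w => ?_, inferInstance, ?_⟩
  · rw [Submodule.mem_map]
    constructor
    · rintro ⟨x, hx, rfl⟩
      refine ⟨mem_degreeLT.1 x.1.2, mem_degreeLT.1 x.2.2, ?_⟩
      rw [LinearMap.mem_ker, hθ, Ideal.Quotient.eq_zero_iff_mem, Ideal.mem_span_singleton] at hx
      exact hx
    · rintro ⟨h1, h2, h3⟩
      refine ⟨(⟨w.1, mem_degreeLT.2 h1⟩, ⟨w.2, mem_degreeLT.2 h2⟩), ?_, rfl⟩
      rw [LinearMap.mem_ker, hθ, Ideal.Quotient.eq_zero_iff_mem, Ideal.mem_span_singleton]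
      exact h3
  · have h1 := (Submodule.equivMapOfInjective ι hinj (LinearMap.ker θ)).finrank_eq
    omega

end field

end Pool.Agent.H458.PD
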