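import Pool.Agent.H458.PD.Sta

/-!
# The regularity condition

`f = E ^ 2 + x F ^ 2 + π r`, where `r` and `F` have no common factor modulo `π` (the residue
characteristic is two). Then `A` and `D` have no common factor modulo `π` if `B ^ 2 - A D = f`.
-/

set_option autoImplicit false
set_option linter.all false

open Polynomial

namespace Pool.Agent.H458.PD

/-- `f = E ^ 2 + x G ^ 2 + π r` with `r` and `G` coprime modulo `π`. -/
def Reg {O k : Type} [CommRing O] [Field k] (red : O →+* k) (π : O) (f : O[X]) : Prop :=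
  ∃ E G r : O[X], f = E ^ 2 + X * G ^ 2 + C π * r ∧ IsCoprime (r.map red) (G.map red)

section

variable {O K k : Type} [CommRing O] [IsDomain O] [Field K] [Algebra O K] [Field k]
  {red : O →+* k} {π : O} (L : Lc O K k red π)

include L

theorem Lc.dvd_lift {P A : O[X]} (h : P.map red ∣ A.map red) :
    ∃ A' A'' : O[X], A = P * A' + C π * A'' := by
  obtain ⟨a, ha⟩ := h
  obtain ⟨A', rfl⟩ := L.lift a
  obtain ⟨A'', hA''⟩ := (L.map_zero (P := A - P * A')).1 (by
    rw [Polynomial.map_sub, Polynomial.map_mul, ha, sub_self])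
  exact ⟨A', A'', by rw [← hA'']; ring⟩

theorem Lc.cop (h2 : (2 : k) = 0) {f : O[X]} (hfm : f.Monic) (hf : Odd f.natDegree)
    (hR : Reg red π f) {A B D : O[X]} (h : B ^ 2 - A * D = f) :
    IsCoprime (A.map red) (D.map red) := by
  obtain ⟨E, G, r, hfe, hrG⟩ := hR
  have h2X : (2 : k[X]) = 0 := by
    rw [← C_ofNat, h2, C_0]
  have hπ0 : red π = 0 := (L.ker π).2 (dvd_refl _)
  have hfb : f.map red = B.map red ^ 2 - A.map red * D.map red := by
    rw [← h]; simp
  have hfb2 : f.map red = E.map red ^ 2 + X * G.map red ^ 2 := by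
    rw [hfe]; simp [hπ0]
  apply isCoprime_of_irreducible_dvd
  · rintro ⟨h3, h4⟩
    rw [h3, h4, mul_zero, sub_zero] at hfb
    have h5 := congrArg natDegree hfb
    rw [hfm.natDegree_map, natDegree_pow] at h5
    rw [h5] at hf
    exact (Nat.not_odd_iff_even.2 (even_two_mul _)) hf
  · intro p hp hpA hpD
    obtain ⟨P, hP⟩ := L.lift p
    have hpG : p ∣ G.map red := by
      apply hp.prime.dvd_of_dvd_pow (n := 2)
      have h3 : derivative (f.map red) = G.map red ^ 2 := by
        rw [hfb2]
        simp only [derivative_add, derivative_mul, derivative_pow, derivative_X, Nat.cast_ofNat,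
          C_ofNat, h2X]
        ring
      have h4 : derivative (f.map red) =
          -(derivative (A.map red) * D.map red + A.map red * derivative (D.map red)) := by
        rw [hfb]
        simp only [derivative_sub, derivative_mul, derivative_pow, Nat.cast_ofNat, C_ofNat, h2X]
        ring
      rw [← h3, h4, dvd_neg]
      exact dvd_add (Dvd.dvd.mul_left hpD _) (Dvd.dvd.mul_right hpA _)
    have hpB : p ∣ (B - E).map red := by
      apply hp.prime.dvd_of_dvd_pow (n := 2)
      have h3 : (B - E).map red ^ 2 = A.map red * D.map red - X * G.map red ^ 2 := by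
        rw [Polynomial.map_sub]
        have h4 : B.map red ^ 2 = f.map red + A.map red * D.map red := by rw [hfb]; ring
        have h5 : E.map red ^ 2 = f.map red - X * G.map red ^ 2 := by rw [hfb2]; ring
        linear_combination h4 + h5 + (f.map red - B.map red * E.map red) * h2X
      rw [h3]
      exact dvd_sub (Dvd.dvd.mul_right hpA _)
        (Dvd.dvd.mul_left (Dvd.dvd.trans hpG (dvd_pow_self _ two_ne_zero)) _)
    rw [← hP] at hpA hpD hpG hpB
    obtain ⟨A', A'', hA⟩ := L.dvd_lift hpA
    obtain ⟨D', D'', hD⟩ := L.dvd_lift hpD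
    obtain ⟨G', G'', hG⟩ := L.dvd_lift hpG
    obtain ⟨β', β'', hβ⟩ := L.dvd_lift hpB
    obtain ⟨t0, ht0⟩ : π ∣ (2 : O) := by
      rw [← L.ker, map_ofNat, h2]
    have ht : (2 : O[X]) = C π * C t0 := by
      rw [← C_mul, ← ht0, C_ofNat]
    set s := β' ^ 2 - A' * D' - X * G' ^ 2 with hs
    set t := β' * β'' + β' * (β'' + C t0 * E) - A' * D'' - A'' * D' - 2 * X * G' * G'' with htdef
    set u := β'' * (β'' + C t0 * E) - A'' * D'' - X * G'' ^ 2 with hu
    have h3 : P ^ 2 * s = C π * (r - P * t - C π * u) := by
      have h4 : C π * r = (B - E) * (B - E + 2 * E) - A * D - X * G ^ 2 := by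
        linear_combination (-1 : O[X]) * h - hfe
      have h5 : C π * (r - P * t - C π * u) = C π * r - C π * P * t - C π * C π * u := by ring
      rw [h5, h4, hβ, hA, hD, hG, ht, hs, htdef, hu]
      ring
    have h4 : s.map red = 0 := by
      have h5 := congrArg (Polynomial.map red) h3
      rw [Polynomial.map_mul, Polynomial.map_mul, map_C, hπ0, C_0, zero_mul, Polynomial.map_pow,
        hP] at h5
      exact (mul_eq_zero.1 h5).resolve_left (pow_ne_zero _ hp.ne_zero)
    obtain ⟨s', hs'⟩ := L.map_zero.1 h4
    have h5 : r = P * (t + P * s') + C π * u := by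
      have h6 : C π * (P ^ 2 * s') = C π * (r - P * t - C π * u) := by
        rw [← h3, hs']; ring
      have h7 := mul_left_cancel₀ L.Cne h6
      linear_combination (-1) * h7
    have h6 : p ∣ r.map red := by
      rw [h5, Polynomial.map_add, Polynomial.map_mul, Polynomial.map_mul, map_C, hπ0, C_0, zero_mul,
        add_zero, hP]
      exact dvd_mul_right _ _
    rw [hP] at hpG
    exact hp.not_isUnit (hrG.isUnit_of_dvd' h6 hpG)

end

end Pool.Agent.H458.PD
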