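import Pool.Agent.H458.PD.Goo

/-!
# The square of a good ideal
-/

set_option autoImplicit false
set_option linter.all false

open Polynomial
open scoped Classical

namespace Pool.Agent.H458.PD

section

variable {R : Type} [CommRing R] {f : R}

theorem two_eq : (2 : QA R f) = xx f 2 := by
  apply QuadraticAlgebra.ext
  · exact QuadraticAlgebra.re_ofNat 2
  · exact QuadraticAlgebra.im_ofNat 2

theorem xx_one : xx f 1 = 1 := rfl

theorem xx_neg (a : R) : xx f (-a) = -xx f a := by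
  apply QuadraticAlgebra.ext <;> simp [xx]

theorem by_sq {A B D : R} (h : B ^ 2 - A * D = f) :
    by' f B ^ 2 = 2 * xx f B * by' f B - xx f A * xx f D := by
  rw [two_eq]
  apply QuadraticAlgebra.ext
  · rw [pow_two]
    simp only [by', xx, QuadraticAlgebra.re_mul, QuadraticAlgebra.re_sub, QuadraticAlgebra.im_mul]
    linear_combination (-1 : R) * h
  · rw [pow_two]
    simp only [by', xx, QuadraticAlgebra.re_mul, QuadraticAlgebra.im_sub, QuadraticAlgebra.im_mul]
    ring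

/-- `(A, B - y) ^ 2 ⊆ (h) + 2 (A, B - y) ^ 2` for an element `h` with `h ≡ A` modulo 2. -/
theorem sq_le {A B D : R} (h : B ^ 2 - A * D = f) (hc : IsCoprime A D) :
    ∃ w z : QA R f, w = xx f A + 2 * z ∧
      idl f A B ^ 2 ≤ Ideal.span {w} ⊔ Ideal.span {2} * idl f A B ^ 2 := by
  obtain ⟨α, γ, hαγ⟩ := hc
  have hb := by_sq h
  have hx : xx f α * xx f A + xx f γ * xx f D = 1 := by
    rw [← xx_mul, ← xx_mul, ← xx_add, hαγ, xx_one]
  generalize hA' : xx f A = a at *
  generalize hB' : xx f B = β at *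
  generalize hD' : xx f D = δ at *
  generalize hα' : xx f α = α' at *
  generalize hγ' : xx f γ = γ' at *
  generalize hb' : by' f B = b at *
  refine ⟨a - 2 * γ' * β * b, -(γ' * β * b), by ring, ?_⟩
  have ha2 : idl f A B ^ 2 = Ideal.span {a * a, a * b, b * a, b * b} := by
    rw [idl, pow_two, Ideal.span_pair_mul_span_pair, hA', hb']
  have m1 : a * a ∈ idl f A B ^ 2 := by rw [ha2]; exact Ideal.subset_span (by simp)
  have m2 : a * b ∈ idl f A B ^ 2 := by rw [ha2]; exact Ideal.subset_span (by simp)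
  have m3 : b * b ∈ idl f A B ^ 2 := by rw [ha2]; exact Ideal.subset_span (by simp)
  have hh : ∀ c : QA R f, c * (a - 2 * γ' * β * b) ∈ Ideal.span {a - 2 * γ' * β * b} ⊔
      Ideal.span {2} * idl f A B ^ 2 := fun c =>
    Ideal.mem_sup_left (Ideal.mul_mem_left _ _ (Ideal.mem_span_singleton_self _))
  have h2 : ∀ c x : QA R f, x ∈ idl f A B ^ 2 → 2 * (c * x) ∈ Ideal.span {a - 2 * γ' * β * b} ⊔
      Ideal.span {2} * idl f A B ^ 2 := fun c x hx =>
    Ideal.mem_sup_right (Ideal.mul_mem_mul (Ideal.mem_span_singleton_self _)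
      (Ideal.mul_mem_left _ _ hx))
  conv_lhs => rw [ha2]
  rw [Ideal.span_le]
  have k1 : a * a ∈ Ideal.span {a - 2 * γ' * β * b} ⊔ Ideal.span {2} * idl f A B ^ 2 := by
    have e : a * a = a * (a - 2 * γ' * β * b) + 2 * ((γ' * β) * (a * b)) := by ring
    rw [e]
    exact Ideal.add_mem _ (hh _) (h2 _ _ m2)
  have k2 : a * b ∈ Ideal.span {a - 2 * γ' * β * b} ⊔ Ideal.span {2} * idl f A B ^ 2 := by
    have e : a * b = b * (a - 2 * γ' * β * b) + 2 * ((γ' * β) * (b * b)) := by ring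
    rw [e]
    exact Ideal.add_mem _ (hh _) (h2 _ _ m3)
  have k3 : b * b ∈ Ideal.span {a - 2 * γ' * β * b} ⊔ Ideal.span {2} * idl f A B ^ 2 := by
    have e : b * b = (-δ) * (a - 2 * γ' * β * b) + 2 * ((α' * β) * (a * b)) := by
      linear_combination hb + 2 * β * b * (-hx)
    rw [e]
    exact Ideal.add_mem _ (hh _) (h2 _ _ m2)
  intro w hw
  simp only [Set.mem_insert_iff, Set.mem_singleton_iff] at hw
  rcases hw with rfl | rfl | rfl | rfl
  · exact k1
  · exact k2
  · rw [mul_comm b a]; exact k2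
  · exact k3

theorem sq_le' {A B D : R} (h : B ^ 2 - A * D = f) (hc : IsCoprime A D) :
    ∃ w z : QA R f, w = xx f A + 2 * z ∧ ∀ t : ℕ,
      idl f A B ^ 2 ≤ Ideal.span {w} ⊔ Ideal.span {2 ^ t} := by
  obtain ⟨w, z, hw, hle⟩ := sq_le h hc
  refine ⟨w, z, hw, fun t => ?_⟩
  have key : ∀ t : ℕ, idl f A B ^ 2 ≤ Ideal.span {w} ⊔ Ideal.span {2 ^ t} * idl f A B ^ 2 := by
    intro t
    induction t with
    | zero =>
      rw [pow_zero, Ideal.span_singleton_one, ← Ideal.one_eq_top, one_mul]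
      exact le_sup_right
    | succ t ih =>
      refine hle.trans (sup_le le_sup_left ?_)
      refine (Ideal.mul_mono_right ih).trans ?_
      rw [Ideal.mul_sup]
      refine sup_le (Ideal.mul_le_right.trans le_sup_left) ?_
      rw [← mul_assoc, Ideal.span_singleton_mul_span_singleton, ← pow_succ']
      exact le_sup_right
  exact (key t).trans (sup_le_sup_left Ideal.mul_le_left _)

/-- powers of a sum of principal ideals -/
theorem sup_pow_le {S : Type} [CommRing S] (a b : S) (M : ℕ) :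
    (Ideal.span {a} ⊔ Ideal.span {b}) ^ M ≤ Ideal.span {a ^ M} ⊔ Ideal.span {b} := by
  induction M with
  | zero =>
    rw [pow_zero, pow_zero, Ideal.span_singleton_one, top_sup_eq]
    exact le_top
  | succ M ih =>
    rw [pow_succ]
    refine (Ideal.mul_mono_left ih).trans ?_
    rw [Ideal.sup_mul, Ideal.mul_sup, Ideal.span_singleton_mul_span_singleton, ← pow_succ]
    refine sup_le (sup_le le_sup_left (Ideal.mul_le_right.trans le_sup_right))
      (Ideal.mul_le_left.trans le_sup_right)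

/-- An element of `(A, B - y) ^ (2 ^ (s + 1)) J` is congruent to `A ^ (2 ^ s) e`, `e ∈ J`, modulo
`2 ^ (s + 1)`. -/
theorem elem_cong {A B D : R} (h : B ^ 2 - A * D = f) (hc : IsCoprime A D) (s : ℕ)
    (J : Ideal (QA R f)) {x : QA R f} (hx : x ∈ idl f A B ^ 2 ^ (s + 1) * J) :
    ∃ e ∈ J, ∃ c, x = xx f (A ^ 2 ^ s) * e + 2 ^ (s + 1) * c := by
  obtain ⟨w, z, hw, hle⟩ := sq_le' h hc
  have h1 : idl f A B ^ 2 ^ (s + 1) * J ≤ Ideal.span {w ^ 2 ^ s} * J ⊔ Ideal.span {2 ^ (s + 1)} := by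
    rw [pow_succ', pow_mul]
    calc (idl f A B ^ 2) ^ 2 ^ s * J ≤
        (Ideal.span {w} ⊔ Ideal.span {2 ^ (s + 1)}) ^ 2 ^ s * J :=
          Ideal.mul_mono_left (Ideal.pow_right_mono (hle _) _)
      _ ≤ (Ideal.span {w ^ 2 ^ s} ⊔ Ideal.span {2 ^ (s + 1)}) * J :=
          Ideal.mul_mono_left (sup_pow_le _ _ _)
      _ = Ideal.span {w ^ 2 ^ s} * J ⊔ Ideal.span {2 ^ (s + 1)} * J := Ideal.sup_mul _ _ _
      _ ≤ _ := sup_le_sup_left Ideal.mul_le_left _
  obtain ⟨y, hy, y', hy', rfl⟩ := Submodule.mem_sup.1 (h1 hx)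
  obtain ⟨e, he, rfl⟩ := Ideal.mem_span_singleton_mul.1 hy
  obtain ⟨c', rfl⟩ := Ideal.mem_span_singleton.1 hy'
  have h2 : ((2 : ℕ) : QA R f) ∣ w - xx f A := by
    rw [hw]
    exact ⟨z, by push_cast; ring⟩
  obtain ⟨c, hc⟩ := dvd_sub_pow_of_dvd_sub h2 s
  refine ⟨e, he, c * e + c', ?_⟩
  rw [xx_pow]
  have h3 : w ^ 2 ^ s = xx f A ^ 2 ^ s + 2 ^ (s + 1) * c := by
    rw [← sub_eq_iff_eq_add', hc]
    push_cast
    rfl
  rw [h3]
  ring

end

end Pool.Agent.H458.PD
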