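import Pool.Agent.H458.PD.Min

/-!
# Every ideal class contains an ideal `(A, B - y)`
-/

set_option autoImplicit false
set_option linter.all false

open Polynomial

namespace Pool.Agent.H458.PD

section

variable {K : Type} [Field K] {f : K[X]}

theorem re_sub' {R : Type} [CommRing R] {f : R} (a b : QA R f) : (a - b).re = a.re - b.re := rfl

theorem start_K (hf : Odd f.natDegree) {I : Ideal (QA K[X] f)} (hI : I ≠ ⊥) :
    ∃ A B D : K[X], B ^ 2 - A * D = f ∧ Eqv I (idl f A B) := by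
  haveI := isDomain hf
  have hf0 : f ≠ 0 := by
    rintro rfl
    simp at hf
  -- the ideals of imaginary parts and of the elements of `K[X]`
  obtain ⟨S, hS⟩ : ∃ S : Ideal K[X], ∀ q, q ∈ S ↔ ∃ p, (⟨p, q⟩ : QA K[X] f) ∈ I := by
    refine ⟨⟨⟨⟨{q | ∃ p, (⟨p, q⟩ : QA K[X] f) ∈ I}, ?_⟩, ?_⟩, ?_⟩, fun q => Iff.rfl⟩
    · rintro a b ⟨p, hp⟩ ⟨p', hp'⟩
      exact ⟨p + p', I.add_mem hp hp'⟩
    · exact ⟨0, I.zero_mem⟩
    · rintro c q ⟨p, hp⟩
      refine ⟨c * p, ?_⟩
      have := I.mul_mem_left (xx f c) hp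
      convert this using 1
      apply QuadraticAlgebra.ext <;> simp [xx]
  obtain ⟨T, hT⟩ : ∃ T : Ideal K[X], ∀ p, p ∈ T ↔ xx f p ∈ I :=
    ⟨I.comap (algebraMap K[X] (QA K[X] f)), fun p => Iff.rfl⟩
  obtain ⟨D, hD⟩ : ∃ D, S = Ideal.span {D} := (inferInstance : S.IsPrincipal).principal
  obtain ⟨A0, hA0⟩ : ∃ A0, T = Ideal.span {A0} := (inferInstance : T.IsPrincipal).principal
  have hD' : ∀ q, D ∣ q ↔ ∃ p, (⟨p, q⟩ : QA K[X] f) ∈ I := by
    intro q
    rw [← hS, hD, Ideal.mem_span_singleton]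
  have hA0' : ∀ p, A0 ∣ p ↔ xx f p ∈ I := by
    intro q
    rw [← hT, hA0, Ideal.mem_span_singleton]
  have hDne : D ≠ 0 := by
    intro h0
    obtain ⟨w, hw, hw0⟩ := Submodule.exists_mem_ne_zero_of_ne_bot hI
    have h1 : D ∣ w.im := (hD' _).2 ⟨w.re, hw⟩
    have h2 : D ∣ w.re := by
      refine (hD' _).2 ⟨f * w.im, ?_⟩
      have := I.mul_mem_left (⟨0, 1⟩ : QA K[X] f) hw
      convert this using 1
      apply QuadraticAlgebra.ext <;> simp
    rw [h0, zero_dvd_iff] at h1 h2
    exact hw0 (QuadraticAlgebra.ext h2 h1)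
  obtain ⟨B0, hB0⟩ := (hD' D).1 (dvd_refl D)
  obtain ⟨A, hA⟩ : D ∣ A0 := by
    refine (hD' _).2 ⟨0, ?_⟩
    have := I.mul_mem_left (⟨0, 1⟩ : QA K[X] f) ((hA0' A0).1 (dvd_refl _))
    convert this using 1
    apply QuadraticAlgebra.ext <;> simp [xx]
  obtain ⟨B1, hB1⟩ : D ∣ B0 := by
    refine (hD' _).2 ⟨f * D, ?_⟩
    have := I.mul_mem_left (⟨0, 1⟩ : QA K[X] f) hB0
    convert this using 1
    apply QuadraticAlgebra.ext <;> simp
  obtain ⟨E, hE⟩ : A ∣ B1 ^ 2 - f := by
    have h1 : A0 ∣ D * (B1 ^ 2 - f) := by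
      rw [hA0']
      have := I.mul_mem_left (⟨B1, -1⟩ : QA K[X] f) hB0
      convert this using 1
      apply QuadraticAlgebra.ext
      · simp [xx, hB1]; ring
      · simp [xx, hB1]; ring
    rw [hA] at h1
    exact (mul_dvd_mul_iff_left hDne).1 h1
  refine ⟨A, -B1, E, ?_, 1, xx f D, one_ne_zero, ?_, ?_⟩
  · linear_combination hE
  · rwa [Ne, xx_eq_zero]
  · rw [Ideal.span_singleton_one, Ideal.one_eq_top.symm, one_mul]
    apply le_antisymm
    · intro w hw
      rw [Ideal.mem_span_singleton_mul]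
      obtain ⟨q', hq'⟩ : D ∣ w.im := (hD' _).2 ⟨w.re, hw⟩
      obtain ⟨c, hc⟩ : A0 ∣ w.re - q' * B0 := by
        rw [hA0']
        have := I.sub_mem hw (I.mul_mem_left (xx f q') hB0)
        convert this using 1
        apply QuadraticAlgebra.ext
        · simp [xx]
        · simp [xx, hq']; ring
      refine ⟨⟨A * c + q' * B1, q'⟩, ?_, ?_⟩
      · rw [mem_idl (C := E) (by linear_combination hE)]
        exact ⟨c, by ring⟩
      · apply QuadraticAlgebra.ext
        · simp only [xx, QuadraticAlgebra.re_mul]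
          rw [hA, hB1] at hc
          linear_combination (-1) * hc
        · simp only [xx, QuadraticAlgebra.im_mul]
          rw [hq']
          ring
    · rw [idl, Ideal.span_mul_span', Ideal.span_le]
      intro w hw
      simp only [Set.singleton_mul, Set.image_insert_eq, Set.image_singleton, Set.mem_insert_iff,
        Set.mem_singleton_iff] at hw
      rcases hw with rfl | rfl
      · rw [← xx_mul, ← hA]
        exact (hA0' A0).1 (dvd_refl _)
      · have : xx f D * by' f (-B1) = -⟨B0, D⟩ := by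
          apply QuadraticAlgebra.ext
          · simp [xx, by', hB1]
          · simp [xx, by']
        rw [this]
        exact I.neg_mem hB0

end

section

variable {O K k : Type} [CommRing O] [IsDomain O] [Field K] [Algebra O K] [Field k]
  {red : O →+* k} {π : O} (L : Lc O K k red π)

include L

theorem Lc.den_poly (P : K[X]) : ∃ (n : ℕ) (Q : O[X]), P * C (algebraMap O K π ^ n) = mp K Q := by
  induction P using Polynomial.induction_on' with
  | add p q hp hq =>
    obtain ⟨n, P, hP⟩ := hp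
    obtain ⟨m, Q, hQ⟩ := hq
    refine ⟨n + m, P * C (π ^ m) + Q * C (π ^ n), ?_⟩
    unfold mp at hP hQ ⊢
    rw [Polynomial.map_add, Polynomial.map_mul, Polynomial.map_mul, ← hP, ← hQ, map_C, map_C]
    simp only [_root_.map_pow, _root_.map_mul, pow_add]
    ring
  | monomial i a =>
    obtain ⟨n, x, hx⟩ := L.den a
    refine ⟨n, monomial i x, ?_⟩
    unfold mp
    rw [Polynomial.map_monomial, ← hx, monomial_mul_C]

theorem Lc.start {f : O[X]} (hf : Odd f.natDegree) {I : Ideal (QA K[X] (mp K f))} (hI : I ≠ ⊥) :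
    ∃ A B D : O[X], B ^ 2 - A * D = f ∧ Eqv I (idl (mp K f) (mp K A) (mp K B)) := by
  have hfK : Odd (mp K f).natDegree := by
    unfold mp
    rwa [natDegree_map_eq_of_injective L.inj]
  haveI := isDomain hfK
  obtain ⟨A, B, D, h, hE⟩ := start_K hfK hI
  obtain ⟨n1, A1, h1⟩ := L.den_poly A
  obtain ⟨n2, B1, h2⟩ := L.den_poly B
  obtain ⟨n3, D1, h3⟩ := L.den_poly D
  have hp := L.pne
  set j := n1 + n2 + n3 with hj
  have e1 : A * C (algebraMap O K π ^ j) = mp K (A1 * C (π ^ (n2 + n3))) := by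
    unfold mp at h1 ⊢
    rw [hj, Polynomial.map_mul, ← h1, map_C]
    simp only [_root_.map_pow, _root_.map_mul, pow_add]
    ring
  have e2 : B * C (algebraMap O K π ^ j) = mp K (B1 * C (π ^ (n1 + n3))) := by
    unfold mp at h2 ⊢
    rw [hj, Polynomial.map_mul, ← h2, map_C]
    simp only [_root_.map_pow, _root_.map_mul, pow_add]
    ring
  have e3 : D * C (algebraMap O K π ^ j) = mp K (D1 * C (π ^ (n1 + n2))) := by
    unfold mp at h3 ⊢
    rw [hj, Polynomial.map_mul, ← h3, map_C]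
    simp only [_root_.map_pow, _root_.map_mul, pow_add]
    ring
  obtain ⟨A', B', D', h4, h5⟩ := L.min hf j (A1 * C (π ^ (n2 + n3))) (B1 * C (π ^ (n1 + n3)))
    (D1 * C (π ^ (n1 + n2))) (by
      apply L.mp_inj (K := K)
      unfold mp at h e1 e2 e3 ⊢
      rw [Polynomial.map_sub, Polynomial.map_pow, ← e2, Polynomial.map_mul (p := A1 * _), ← e1, ← e3,
        Polynomial.map_mul, map_C, ← h]
      simp only [_root_.map_pow, _root_.map_mul, pow_mul']
      ring)
  refine ⟨A', B', D', h4, hE.trans ?_⟩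
  have e4 : idl (mp K f) (mp K (A1 * C (π ^ (n2 + n3)))) (dv K π j (B1 * C (π ^ (n1 + n3)))) =
      idl (mp K f) A B := by
    unfold dv
    rw [← e1, ← e2, mul_comm A, idl_scale (pow_ne_zero _ hp)]
    congr 1
    rw [mul_comm B, ← mul_assoc, ← C_mul, ← mul_pow, inv_mul_cancel₀ hp, one_pow, C_1, one_mul]
  rw [← e4]
  exact h5

end

end Pool.Agent.H458.PD
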