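import Pool.Agent.H458.PD.Sq

/-!
# Approximate generators
-/

set_option autoImplicit false
set_option linter.all false

open Polynomial
open scoped Classical

namespace Pool.Agent.H458.PD

section

variable {R : Type} [CommRing R] {f : R}

/-- The norm. -/
def nm (w : QA R f) : R := w.re ^ 2 - f * w.im ^ 2

variable (f) in
/-- The conjugation. -/
def cj : QA R f →+* QA R f where
  toFun w := ⟨w.re, -w.im⟩
  map_zero' := by apply QuadraticAlgebra.ext <;> simp
  map_one' := by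
    apply QuadraticAlgebra.ext
    · rfl
    · exact neg_zero
  map_add' a b := by
    apply QuadraticAlgebra.ext
    · rfl
    · exact neg_add _ _
  map_mul' a b := by
    apply QuadraticAlgebra.ext
    · simp only [QuadraticAlgebra.re_mul]; ring
    · simp only [QuadraticAlgebra.im_mul]; ring

theorem mul_cj (w : QA R f) : w * cj f w = xx f (nm w) := by
  apply QuadraticAlgebra.ext
  · simp only [cj, xx, nm, RingHom.coe_mk, MonoidHom.coe_mk, OneHom.coe_mk, QuadraticAlgebra.re_mul]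
    ring
  · simp only [cj, xx, nm, RingHom.coe_mk, MonoidHom.coe_mk, OneHom.coe_mk, QuadraticAlgebra.im_mul]
    ring

theorem xx_dvd {a b : R} : xx f a ∣ xx f b ↔ a ∣ b := by
  constructor
  · rintro ⟨z, hz⟩
    have := congrArg QuadraticAlgebra.re hz
    simp only [xx, QuadraticAlgebra.re_mul] at this
    exact ⟨z.re, by linear_combination this⟩
  · rintro ⟨z, rfl⟩
    exact ⟨xx f z, xx_mul _ _⟩

theorem xx_dvd' {a : R} {w : QA R f} : xx f a ∣ w ↔ a ∣ w.re ∧ a ∣ w.im := by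
  constructor
  · rintro ⟨z, rfl⟩
    refine ⟨⟨z.re, ?_⟩, ⟨z.im, ?_⟩⟩
    · simp only [xx, QuadraticAlgebra.re_mul]; ring
    · simp only [xx, QuadraticAlgebra.im_mul]; ring
  · rintro ⟨⟨b, hb⟩, ⟨c, hc⟩⟩
    refine ⟨⟨b, c⟩, ?_⟩
    apply QuadraticAlgebra.ext
    · simp only [xx, QuadraticAlgebra.re_mul]; rw [hb]; ring
    · simp only [xx, QuadraticAlgebra.im_mul]; rw [hc]; ring

theorem cj_idl (A B : R) : (idl f A B).map (cj f) = idl' f A B := by
  rw [idl, idl', Ideal.map_span, Set.image_pair]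
  congr 2
  · apply QuadraticAlgebra.ext
    · rfl
    · exact neg_zero
  · congr 1
    apply QuadraticAlgebra.ext
    · simp [cj, by']
    · simp [cj, by']

theorem cj_idl' (A B : R) : (idl' f A B).map (cj f) = idl f A B := by
  rw [idl, idl', Ideal.map_span, Set.image_pair]
  congr 2
  · apply QuadraticAlgebra.ext
    · rfl
    · exact neg_zero
  · congr 1
    apply QuadraticAlgebra.ext
    · simp [cj, by']
    · simp [cj, by']

theorem nm_dvd {γ : QA R f} {J : Ideal (QA R f)} (h : Ideal.span {γ} = J) {U : R}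
    (hU : J * J.map (cj f) = Ideal.span {xx f U}) : nm γ ∣ U := by
  rw [← h, Ideal.map_span, Set.image_singleton, Ideal.span_singleton_mul_span_singleton,
    mul_cj] at hU
  rw [← xx_dvd (f := f), ← Ideal.mem_span_singleton, hU]
  exact Ideal.mem_span_singleton_self _

end

section

variable {O K : Type} [CommRing O] [IsDomain O] [Field K] [Algebra O K]

variable (K) in
/-- Change of constants. -/
noncomputable def Ph (f : O[X]) : QA O[X] f →+* QA K[X] (mp K f) where
  toFun w := ⟨mp K w.re, mp K w.im⟩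
  map_zero' := by apply QuadraticAlgebra.ext <;> simp
  map_one' := by
    apply QuadraticAlgebra.ext
    · exact Polynomial.map_one _
    · exact Polynomial.map_zero _
  map_add' a b := by apply QuadraticAlgebra.ext <;> simp
  map_mul' a b := by
    apply QuadraticAlgebra.ext
    · simp only [QuadraticAlgebra.re_mul, mp, Polynomial.map_add, Polynomial.map_mul]
    · simp only [QuadraticAlgebra.im_mul, mp, Polynomial.map_add, Polynomial.map_mul, zero_mul,
        Polynomial.map_zero]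

theorem Ph_xx (f A : O[X]) : Ph K f (xx f A) = xx (mp K f) (mp K A) := by
  apply QuadraticAlgebra.ext
  · rfl
  · exact Polynomial.map_zero _

theorem Ph_idl (f A B : O[X]) : (idl f A B).map (Ph K f) = idl (mp K f) (mp K A) (mp K B) := by
  rw [idl, idl, Ideal.map_span, Set.image_pair, Ph_xx]
  congr 3
  apply QuadraticAlgebra.ext
  · rfl
  · simp [Ph, by']

theorem Ph_idl' (f A B : O[X]) :
    (idl' f A B).map (Ph K f) = idl' (mp K f) (mp K A) (mp K B) := by
  rw [idl', idl', Ideal.map_span, Set.image_pair, Ph_xx]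
  congr 3
  apply QuadraticAlgebra.ext
  · simp [Ph, by']
  · simp [Ph, by']

end

section

variable {O K k : Type} [CommRing O] [IsDomain O] [Field K] [Algebra O K] [Field k]
  {red : O →+* k} {π : O} (L : Lc O K k red π)

include L

theorem Lc.sat {f U : O[X]} (hf : Odd f.natDegree) (hU : U.Monic) {J J' : Ideal (QA O[X] f)}
    (hJ : J * J' = Ideal.span {xx f U}) {γ : QA O[X] f} (h : Ph K f γ ∈ J.map (Ph K f)) :
    γ ∈ J := by
  haveI := isDomain hf
  have h1 : Ideal.span {γ} * J' ≤ Ideal.span {xx f U} := by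
    rw [Ideal.span_singleton_mul_le_iff]
    intro t ht
    rw [Ideal.mem_span_singleton, xx_dvd']
    have h2 : Ph K f (γ * t) ∈ Ideal.span {xx (mp K f) (mp K U)} := by
      rw [← Ph_xx, ← Set.image_singleton, ← Ideal.map_span, ← hJ, Ideal.map_mul, map_mul]
      exact Ideal.mul_mem_mul h (Ideal.mem_map_of_mem _ ht)
    rw [Ideal.mem_span_singleton, xx_dvd'] at h2
    exact ⟨(Polynomial.map_dvd_map _ L.inj hU).1 h2.1, (Polynomial.map_dvd_map _ L.inj hU).1 h2.2⟩
  have h2 : γ * xx f U ∈ Ideal.span {xx f U} * J := by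
    have h3 : γ * xx f U ∈ Ideal.span {γ} * J' * J := by
      rw [mul_assoc, mul_comm J' J, hJ]
      exact Ideal.mul_mem_mul (Ideal.mem_span_singleton_self _) (Ideal.mem_span_singleton_self _)
    exact Ideal.mul_mono_left h1 h3
  obtain ⟨j, hj, hj2⟩ := Ideal.mem_span_singleton_mul.1 h2
  have h3 : xx f U ≠ 0 := by
    rw [Ne, xx_eq_zero]
    exact hU.ne_zero
  have h4 : j = γ := by
    apply mul_left_cancel₀ h3
    rw [hj2, mul_comm]
  rwa [← h4]

theorem Lc.prim {f : O[X]} {γ : QA K[X] (mp K f)} (hγ : γ ≠ 0) :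
    ∃ (c : K) (γ' : QA O[X] f), c ≠ 0 ∧ Ph K f γ' = xx (mp K f) (C c) * γ ∧
      ¬ (γ'.re.map red = 0 ∧ γ'.im.map red = 0) := by
  obtain ⟨n1, P1, h1⟩ := L.den_poly γ.re
  obtain ⟨n2, P2, h2⟩ := L.den_poly γ.im
  have hp := L.pne
  obtain ⟨γ1, hγ1⟩ : ∃ γ1 : QA O[X] f, γ1 = ⟨P1 * C (π ^ n2), P2 * C (π ^ n1)⟩ := ⟨_, rfl⟩
  have e1 : Ph K f γ1 = xx (mp K f) (C (algebraMap O K π ^ (n1 + n2))) * γ := by
    rw [hγ1]
    unfold mp at h1 h2
    apply QuadraticAlgebra.ext
    · simp only [Ph, xx, RingHom.coe_mk, MonoidHom.coe_mk, OneHom.coe_mk, QuadraticAlgebra.re_mul, mp,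
        Polynomial.map_mul, map_C, ← h1, _root_.map_pow, Polynomial.map_pow, pow_add, _root_.map_mul]
      ring
    · simp only [Ph, xx, RingHom.coe_mk, MonoidHom.coe_mk, OneHom.coe_mk, QuadraticAlgebra.im_mul, mp,
        Polynomial.map_mul, map_C, ← h2, _root_.map_pow, Polynomial.map_pow, pow_add, _root_.map_mul]
      ring
  have h0 : γ1 ≠ 0 := by
    intro h0
    rw [h0, _root_.map_zero] at e1
    apply hγ
    have e2 := congrArg QuadraticAlgebra.re e1
    have e3 := congrArg QuadraticAlgebra.im e1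
    have hne : (C (algebraMap O K π ^ (n1 + n2)) : K[X]) ≠ 0 := by
      rw [Ne, C_eq_zero]
      exact pow_ne_zero _ hp
    simp only [xx, QuadraticAlgebra.re_mul, QuadraticAlgebra.im_mul, QuadraticAlgebra.re_zero,
      QuadraticAlgebra.im_zero, mul_zero, zero_mul, add_zero] at e2 e3
    apply QuadraticAlgebra.ext
    · exact (mul_eq_zero.1 e2.symm).resolve_left hne
    · exact (mul_eq_zero.1 e3.symm).resolve_left hne
  have hex : ∃ s : ℕ, ¬ (C (π ^ s) ∣ γ1.re ∧ C (π ^ s) ∣ γ1.im) := by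
    by_contra hcon
    push Not at hcon
    apply h0
    apply QuadraticAlgebra.ext
    · ext i
      by_contra hi
      obtain ⟨s, hs⟩ := L.dvr _ hi
      exact hs ((C_dvd_iff_dvd_coeff _ _).1 (hcon s).1 i)
    · ext i
      by_contra hi
      obtain ⟨s, hs⟩ := L.dvr _ hi
      exact hs ((C_dvd_iff_dvd_coeff _ _).1 (hcon s).2 i)
  have hs := Nat.find_spec hex
  obtain ⟨s, hseq⟩ : ∃ s, Nat.find hex = s := ⟨_, rfl⟩
  rw [hseq] at hs
  have hs0 : s ≠ 0 := by
    rintro rfl
    apply hs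
    rw [pow_zero, C_1]
    exact ⟨one_dvd _, one_dvd _⟩
  obtain ⟨t, rfl⟩ := Nat.exists_eq_succ_of_ne_zero hs0
  have ht : C (π ^ t) ∣ γ1.re ∧ C (π ^ t) ∣ γ1.im := by
    have := Nat.find_min hex (m := t) (by omega)
    exact not_not.1 this
  obtain ⟨⟨Q1, hQ1⟩, ⟨Q2, hQ2⟩⟩ := ht
  have hinv : (algebraMap O K π)⁻¹ ^ t * algebraMap O K π ^ t = 1 := by
    rw [← mul_pow, inv_mul_cancel₀ hp, one_pow]
  refine ⟨(algebraMap O K π)⁻¹ ^ t * algebraMap O K π ^ (n1 + n2), ⟨Q1, Q2⟩,
    mul_ne_zero (pow_ne_zero _ (inv_ne_zero hp)) (pow_ne_zero _ hp), ?_, ?_⟩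
  · have e2 : Ph K f γ1 = xx (mp K f) (C (algebraMap O K π ^ t)) * Ph K f ⟨Q1, Q2⟩ := by
      apply QuadraticAlgebra.ext
      · simp only [Ph, xx, RingHom.coe_mk, MonoidHom.coe_mk, OneHom.coe_mk, QuadraticAlgebra.re_mul,
          mp, hQ1, Polynomial.map_mul, map_C, _root_.map_pow, Polynomial.map_pow]
        ring
      · simp only [Ph, xx, RingHom.coe_mk, MonoidHom.coe_mk, OneHom.coe_mk, QuadraticAlgebra.im_mul,
          mp, hQ2, Polynomial.map_mul, map_C, _root_.map_pow, Polynomial.map_pow]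
        ring
    calc Ph K f ⟨Q1, Q2⟩ = xx (mp K f) (C ((algebraMap O K π)⁻¹ ^ t * algebraMap O K π ^ t)) *
          Ph K f ⟨Q1, Q2⟩ := by rw [hinv, C_1, xx_one, one_mul]
      _ = xx (mp K f) (C ((algebraMap O K π)⁻¹ ^ t)) * Ph K f γ1 := by
          rw [e2, C_mul, xx_mul, mul_assoc]
      _ = _ := by rw [e1, C_mul, xx_mul, mul_assoc]
  · rintro ⟨h3, h4⟩
    apply hs
    obtain ⟨R1, hR1⟩ := L.map_zero.1 h3
    obtain ⟨R2, hR2⟩ := L.map_zero.1 h4
    simp only at hR1 hR2
    refine ⟨⟨R1, ?_⟩, ⟨R2, ?_⟩⟩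
    · rw [hQ1, hR1, pow_succ, C_mul, mul_assoc]
    · rw [hQ2, hR2, pow_succ, C_mul, mul_assoc]

end

end Pool.Agent.H458.PD
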