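import Pool.Agent.H458.PD.Exf

/-!
# Unions of fields
-/

set_option autoImplicit false
set_option linter.all false

open Polynomial
open scoped Classical

namespace Pool.Agent.H458.PD

open Pool.Agent.Y160.SE (CR xp yy crMap crMap_xp crMap_yy)

instance cr_noeth {W : Type} [Field W] (P : W[X]) : IsNoetherianRing (CR 2 P) :=
  inferInstanceAs (IsNoetherianRing (W[X][X] ⧸ Ideal.span {(X ^ 2 - C P : W[X][X])}))

theorem cr_domain {W : Type} [Field W] {P : W[X]} (hd : Odd P.natDegree) : IsDomain (CR 2 P) := by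
  haveI : IsDomain (QA W[X] P) := isDomain hd
  exact (isoQA P).toMulEquiv.isDomain

/-- The coordinate ring over a union of fields. -/
theorem union_pid {W : Type} [Field W] {P : W[X]}
    (h : ∀ s : Finset W, ∃ (M : Type) (_ : Field M) (φ : M →+* W) (P₀ : M[X]), P₀.map φ = P ∧
      (∀ x ∈ s, x ∈ Set.range φ) ∧ IsPrincipalIdealRing (CR 2 P₀)) :
    IsPrincipalIdealRing (CR 2 P) := by
  constructor
  intro I
  obtain ⟨G, hG⟩ := (isNoetherianRing_iff_ideal_fg (CR 2 P)).1 inferInstance I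
  choose a b hab using cr_eq P
  obtain ⟨M, _, φ, P₀, hP₀, hs, hM⟩ := h (G.biUnion fun g => (a g).coeffs ∪ (b g).coeffs)
  have hlift : ∀ g ∈ G, ∃ g₀ : CR 2 P₀, crMap 2 φ P₀ P hP₀ g₀ = g := by
    intro g hg
    have h1 : ∀ p : W[X], (∀ c ∈ p.coeffs, c ∈ Set.range φ) → ∃ p₀ : M[X], p₀.map φ = p := by
      intro p hp
      have h2 : p ∈ Polynomial.lifts φ := by
        rw [Polynomial.lifts_iff_coeff_lifts]
        intro n
        by_cases h0 : p.coeff n = 0
        · rw [h0]; exact ⟨0, _root_.map_zero φ⟩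
        · exact hp _ (coeff_mem_coeffs h0)
      exact (Polynomial.mem_lifts p).1 h2
    obtain ⟨a₀, ha₀⟩ := h1 (a g) (fun c hc => hs c (Finset.mem_biUnion.2
      ⟨g, hg, Finset.mem_union_left _ hc⟩))
    obtain ⟨b₀, hb₀⟩ := h1 (b g) (fun c hc => hs c (Finset.mem_biUnion.2
      ⟨g, hg, Finset.mem_union_right _ hc⟩))
    refine ⟨xp 2 P₀ a₀ + xp 2 P₀ b₀ * yy 2 P₀, ?_⟩
    rw [_root_.map_add, _root_.map_mul, crMap_xp, crMap_xp, crMap_yy, ha₀, hb₀]
    exact (hab g).symm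
  choose! g₀ hg₀ using hlift
  obtain ⟨x, hx⟩ := (IsPrincipalIdealRing.principal (Ideal.span (g₀ '' (G : Set (CR 2 P))))).principal
  have hx : Ideal.span (g₀ '' (G : Set (CR 2 P))) = Ideal.span {x} := hx
  refine ⟨⟨crMap 2 φ P₀ P hP₀ x, ?_⟩⟩
  have h3 := congrArg (Ideal.map (crMap 2 φ P₀ P hP₀)) hx
  rw [Ideal.map_span, Ideal.map_span, Set.image_singleton, Set.image_image] at h3
  have h4 : (fun g => crMap 2 φ P₀ P hP₀ (g₀ g)) '' (G : Set (CR 2 P)) = (G : Set (CR 2 P)) := by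
    conv_rhs => rw [← Set.image_id (G : Set (CR 2 P))]
    exact Set.image_congr fun g hg => hg₀ g hg
  rw [h4] at h3
  have h5 : Ideal.span (G : Set (CR 2 P)) = I := hG
  rw [h5] at h3
  rw [h3]

end Pool.Agent.H458.PD
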