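import Pool.Agent.H458.PD.Brd

/-!
# The valuation ring of a discrete valuation
-/

set_option autoImplicit false
set_option linter.all false

open Polynomial IsDedekindDomain NumberField WithZero
open scoped Classical

namespace Pool.Agent.H458.PD

section val

variable {M : Type} [Field M]

/-- `u` is a valuation and `π` an element of valuation one. -/
structure Un (u : Valuation M ℤᵐ⁰) (π : u.valuationSubring) : Prop where
  eq : u π = exp (-1 : ℤ)

variable {u : Valuation M ℤᵐ⁰} {π : u.valuationSubring} (U : Un u π)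

theorem vsub_le (x : u.valuationSubring) : u (x : M) ≤ 1 := x.2

theorem vsub_unit {x : u.valuationSubring} (h : u (x : M) = 1) : IsUnit x := by
  have h0 : (x : M) ≠ 0 := by
    intro h0
    rw [h0, _root_.map_zero] at h
    exact zero_ne_one h
  have h1 : u (x : M)⁻¹ ≤ 1 := by rw [map_inv₀, h, inv_one]
  refine IsUnit.of_mul_eq_one (⟨(x : M)⁻¹, h1⟩ : u.valuationSubring) ?_
  apply Subtype.ext
  exact mul_inv_cancel₀ h0

theorem vsub_unit' {x : u.valuationSubring} (h : IsUnit x) : u (x : M) = 1 := by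
  obtain ⟨e, rfl⟩ := h
  apply le_antisymm (vsub_le _)
  have h1 : (((e⁻¹ : (u.valuationSubring)ˣ) : u.valuationSubring) : M) * ((e : u.valuationSubring) : M) = 1 := by
    have := e.inv_mul
    exact congrArg Subtype.val this
  have h2 := congrArg u h1
  rw [_root_.map_mul, _root_.map_one] at h2
  calc (1 : ℤᵐ⁰) = u (((e⁻¹ : (u.valuationSubring)ˣ) : u.valuationSubring) : M) *
        u ((e : u.valuationSubring) : M) := h2.symm
    _ ≤ 1 * u ((e : u.valuationSubring) : M) := mul_le_mul_left (vsub_le _) _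
    _ = _ := one_mul _

include U

theorem Un.pow (n : ℕ) : u ((π : M) ^ n) = exp (-(n : ℤ)) := by
  rw [_root_.map_pow, U.eq, ← exp_nsmul]
  congr 1
  simp

theorem Un.ne : (π : M) ≠ 0 := by
  intro h
  have h1 := U.eq
  rw [h, _root_.map_zero] at h1
  exact exp_ne_zero h1.symm

theorem Un.dvd {x : u.valuationSubring} {n : ℕ} : π ^ n ∣ x ↔ u (x : M) ≤ exp (-(n : ℤ)) := by
  constructor
  · rintro ⟨y, rfl⟩
    have h1 : (((π ^ n * y : u.valuationSubring)) : M) = (π : M) ^ n * (y : M) := rfl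
    rw [h1, _root_.map_mul, U.pow]
    calc exp (-(n : ℤ)) * u (y : M) ≤ exp (-(n : ℤ)) * 1 := mul_le_mul_right (vsub_le y) _
      _ = _ := mul_one _
  · intro h
    have hp0 : (π : M) ^ n ≠ 0 := pow_ne_zero _ U.ne
    have h1 : u ((x : M) / (π : M) ^ n) ≤ 1 := by
      rw [map_div₀, U.pow, div_le_one₀ (exp_pos)]
      exact h
    refine ⟨⟨(x : M) / (π : M) ^ n, h1⟩, ?_⟩
    apply Subtype.ext
    show (x : M) = (π : M) ^ n * ((x : M) / (π : M) ^ n)
    rw [mul_div_cancel₀ _ hp0]

theorem Un.form {x : u.valuationSubring} (hx : x ≠ 0) : ∃ n : ℕ, Associated (π ^ n) x := by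
  have hx0 : (x : M) ≠ 0 := fun h => hx (Subtype.ext h)
  have h1 : u (x : M) ≠ 0 := (Valuation.ne_zero_iff u).2 hx0
  obtain ⟨m, hm⟩ : ∃ m : ℤ, u (x : M) = exp m := ⟨_, (exp_log h1).symm⟩
  have h2 : m ≤ 0 := by
    have := vsub_le x
    rw [hm, ← exp_zero, exp_le_exp] at this
    exact this
  obtain ⟨n, hn⟩ := Int.exists_eq_neg_ofNat h2
  refine ⟨n, ?_⟩
  obtain ⟨y, rfl⟩ := U.dvd.2 (show u (x : M) ≤ exp (-(n : ℤ)) by rw [hm, hn])
  have h3 : u (y : M) = 1 := by
    have h4 : (((π ^ n * y : u.valuationSubring)) : M) = (π : M) ^ n * (y : M) := rfl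
    rw [h4, _root_.map_mul, U.pow, hn] at hm
    have h5 : (exp (-(n : ℤ)) : ℤᵐ⁰) ≠ 0 := exp_ne_zero
    exact (mul_eq_left₀ h5).1 hm
  obtain ⟨e, rfl⟩ := vsub_unit h3
  exact ⟨e, rfl⟩

theorem Un.irr : Irreducible π := by
  constructor
  · intro h
    have h1 := vsub_unit' h
    rw [U.eq, ← exp_zero, exp_inj] at h1
    omega
  · intro a b hab
    by_contra hcon
    push Not at hcon
    have h1 : ∀ c : u.valuationSubring, ¬ IsUnit c → u (c : M) ≤ exp (-1 : ℤ) := by
      intro c hc
      by_cases hc0 : c = 0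
      · rw [hc0]
        show u (0 : M) ≤ _
        rw [_root_.map_zero]
        exact zero_le'
      obtain ⟨n, e, rfl⟩ := U.form hc0
      have hn : n ≠ 0 := by
        rintro rfl
        rw [pow_zero, one_mul] at hc
        exact hc e.isUnit
      have h2 : π ^ 1 ∣ π ^ n * (e : u.valuationSubring) :=
        Dvd.dvd.mul_right (pow_dvd_pow _ (by omega)) _
      have := U.dvd.1 h2
      exact_mod_cast this
    have h2 : u (π : M) = u (a : M) * u (b : M) := by
      rw [← _root_.map_mul]
      exact congrArg (fun z : u.valuationSubring => u (z : M)) hab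
    have h3 := mul_le_mul' (h1 a hcon.1) (h1 b hcon.2)
    rw [← h2, U.eq, ← exp_add, exp_le_exp] at h3
    omega

theorem Un.dvr : IsDiscreteValuationRing u.valuationSubring :=
  IsDiscreteValuationRing.ofHasUnitMulPowIrreducibleFactorization
    ⟨π, U.irr, fun hx => U.form hx⟩

theorem Un.res {x : u.valuationSubring} :
    IsLocalRing.residue u.valuationSubring x = 0 ↔ π ∣ x := by
  rw [IsLocalRing.residue_eq_zero_iff, IsLocalRing.mem_maximalIdeal, mem_nonunits_iff]
  constructor
  · intro h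
    by_cases hx0 : x = 0
    · rw [hx0]; exact dvd_zero _
    obtain ⟨n, e, rfl⟩ := U.form hx0
    have hn : n ≠ 0 := by
      rintro rfl
      rw [pow_zero, one_mul] at h
      exact h e.isUnit
    exact Dvd.dvd.mul_right (dvd_pow_self _ hn) _
  · rintro ⟨y, rfl⟩ h
    exact U.irr.not_isUnit (isUnit_of_mul_isUnit_left h)

theorem Un.lc : Lc u.valuationSubring M (IsLocalRing.ResidueField u.valuationSubring)
    (IsLocalRing.residue u.valuationSubring) π where
  inj := IsFractionRing.injective _ _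
  surj := IsLocalRing.residue_surjective
  ker x := U.res
  unit x h := by
    by_contra hu
    exact h ((IsLocalRing.residue_eq_zero_iff x).2 ((IsLocalRing.mem_maximalIdeal x).2 hu))
  ne := U.irr.ne_zero
  den z := by
    by_cases hz : z = 0
    · exact ⟨0, 0, by rw [hz]; simp⟩
    have h1 : u z ≠ 0 := (Valuation.ne_zero_iff u).2 hz
    obtain ⟨m, hm⟩ : ∃ m : ℤ, u z = exp m := ⟨_, (exp_log h1).symm⟩
    have h2 : u (z * (π : M) ^ m.toNat) ≤ 1 := by
      rw [_root_.map_mul, U.pow, hm, ← exp_add, ← exp_zero, exp_le_exp]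
      omega
    exact ⟨m.toNat, ⟨z * (π : M) ^ m.toNat, h2⟩, rfl⟩
  dvr x hx := by
    obtain ⟨n, e, rfl⟩ := U.form hx
    refine ⟨n + 1, fun h => ?_⟩
    have h1 := (U.irr.ne_zero)
    rw [pow_succ] at h
    have h2 : π ∣ (e : u.valuationSubring) :=
      (mul_dvd_mul_iff_left (pow_ne_zero n h1)).1 h
    exact U.irr.not_isUnit (isUnit_of_dvd_unit h2 e.isUnit)

end val

end Pool.Agent.H458.PD
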